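import Pool.Agent.W_a862e4_tw.Defs

/-!
The event of all steps.
-/

set_option autoImplicit false
set_option linter.unusedSectionVars false

namespace Pool.MP_a862e4_co.TW

open Pool.MP_4929df_co.H91 Pool.MP_a862e4_co.H18
open scoped Classical

variable {V : Type*} [Fintype V]

/-- The proof of `exists_event` (`FinA.lean`), with the conclusion `Chain` instead of a colouring: induction on `W.card`; `Chain.nil`,
`Chain.low`, `Chain.cut` (`exists_SD` needs `2 b ≤ c`, `good_prob`, `ind_or_le`). -/
theorem exists_chain (G : SimpleGraph V) (b c : ℕ) (hb : 0 < b) (hc : 2 * b ≤ c) (W : Finset V) :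
    ∃ E : Finset V → Prop,
      Ex Finset.univ (1 / 2 ^ 22 : ℝ) (fun A => ind (¬ E A)) ≤ W.card * dl (Fintype.card V) b ∧
      ∀ A, E A → Chain G b c A W := by
  have hq0 : (0 : ℝ) ≤ 1 / 2 ^ 22 := by positivity
  have hq1 : (1 / 2 ^ 22 : ℝ) ≤ 1 := by norm_num
  have hdl := FinA_dl_nonneg (Fintype.card V) b
  induction hk : W.card generalizing W with
  | zero =>
    rw [Finset.card_eq_zero] at hk
    subst hk
    refine ⟨fun _ => True, ?_, fun A _ => Chain.nil⟩
    have h1 : Ex Finset.univ (1 / 2 ^ 22 : ℝ) (fun _ : Finset V => ind (¬ True)) = 0 := by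
      have h2 : (fun _ : Finset V => ind (¬ True)) = fun _ : Finset V => (0 : ℝ) := by
        funext A
        exact ind_false (fun h => h trivial)
      rw [h2, Ex_const]
    rw [h1]
    simp
  | succ k ih =>
    have hW : W.Nonempty := by
      rw [← Finset.card_pos]
      omega
    by_cases hlow : ∃ v ∈ W, (nb G W v).card < 9600 * b
    · obtain ⟨v, hvW, hv⟩ := hlow
      have hck : (W.erase v).card = k := by
        rw [Finset.card_erase_of_mem hvW, hk]
        rfl
      obtain ⟨E, hE1, hE2⟩ := ih (W.erase v) hck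
      refine ⟨E, ?_, fun A hA => Chain.low W v hvW hv (hE2 A hA)⟩
      refine hE1.trans ?_
      push_cast
      nlinarith
    · push Not at hlow
      obtain ⟨ρ, X, S, S1, N, v, hSD⟩ := exists_SD G b c hb hc W hW hlow
      have hvW : v ∈ W := hSD.e.XW (Finset.mem_sdiff.1 hSD.vZ).1
      have hck : (W.erase v).card = k := by
        rw [Finset.card_erase_of_mem hvW, hk]
        rfl
      obtain ⟨E, hE1, hE2⟩ := ih (W.erase v) hck
      refine ⟨fun A => E A ∧ GoodA G b ρ W X S S1 N A, ?_, ?_⟩
      · have h1 : ∀ A ⊆ (Finset.univ : Finset V), ind (¬ (E A ∧ GoodA G b ρ W X S S1 N A)) ≤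
            ind (¬ E A) + ind (¬ GoodA G b ρ W X S S1 N A) := by
          intro A _
          refine (ind_mono fun hh => ?_).trans (ind_or_le _ _)
          exact not_and_or.1 hh
        refine (Ex_mono hq0 hq1 h1).trans ?_
        rw [Ex_add]
        have h2 := good_prob hb hSD
        push_cast
        linarith
      · rintro A ⟨hA1, hA2⟩
        exact Chain.cut W v ρ X S S1 N hSD hA2 (hE2 A hA1)

end Pool.MP_a862e4_co.TW
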