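import Pool.Agent.W_a862e4_tw.Defs

/-!
The colouring step in a larger graph.
-/

set_option autoImplicit false
set_option linter.unusedSectionVars false

namespace Pool.MP_a862e4_co.TW

open Pool.MP_4929df_co.H91 Pool.MP_a862e4_co.H18
open scoped Classical

variable {V : Type*} [Fintype V]

/-- connected sets of the induced graph are connected -/
theorem cn_image {G : SimpleGraph V} {P : Finset V} {K : Set {x // x ∈ P}}
    (h : Cn (G.comap (Subtype.val : {x // x ∈ P} → V)) K) : Cn G (Subtype.val '' K) := by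
  refine ⟨h.1.image _, ?_⟩
  intro A hA hne hcl
  have h1 : (Subtype.val ⁻¹' A : Set {x // x ∈ P}) = K := by
    refine h.2 _ ?_ ?_ ?_
    · intro a ha
      obtain ⟨b, hb, hab⟩ := hA ha
      rwa [← Subtype.val_injective hab]
    · obtain ⟨a, ha⟩ := hne
      obtain ⟨b, hb, rfl⟩ := hA ha
      exact ⟨b, ha⟩
    · intro a ha b hb hab
      exact hcl a.1 ha b.1 ⟨b, hb, rfl⟩ hab
  apply Set.Subset.antisymm hA
  rintro _ ⟨b, hb, rfl⟩
  rw [← h1] at hb
  exact hb

/-- `cn_image` for an injective map -/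
theorem cn_image_emb {V' : Type*} {G : SimpleGraph V} {i : V' → V} (hi : Function.Injective i)
    {K : Set V'} (h : Cn (G.comap i) K) : Cn G (i '' K) := by
  refine ⟨h.1.image _, ?_⟩
  intro A hA hne hcl
  have h1 : (i ⁻¹' A : Set V') = K := by
    refine h.2 _ ?_ ?_ ?_
    · intro a ha
      obtain ⟨b, hb, hab⟩ := hA ha
      rwa [← hi hab]
    · obtain ⟨a, ha⟩ := hne
      obtain ⟨b, hb, rfl⟩ := hA ha
      exact ⟨b, ha⟩
    · intro a ha b hb hab
      exact hcl (i a) ha (i b) ⟨b, hb, rfl⟩ hab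
  apply Set.Subset.antisymm hA
  rintro _ ⟨b, hb, rfl⟩
  rw [← h1] at hb
  exact hb

/-- The step in a larger graph, for an injective map `i` (all instances classical). -/
theorem step2_emb {V' : Type*} [Fintype V'] {G : SimpleGraph V} {i : V' → V}
    (hi : Function.Injective i) {Y : Finset V} {b c ρ p q : ℕ} (hb : 0 < b)
    (hc : c + p ≤ 9600 * b) (hPY : ∀ x, i x ∉ Y)
    {W X S S1 A : Finset V'} {N : V' → Finset V'} {v : V'}
    (h : SD (G.comap i) b c ρ W X S S1 N v)
    (hA : GoodA (G.comap i) b ρ W X S S1 N A)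
    (hq : (nb G Y (i v)).card ≤ q)
    (hcol : Colb G (Y ∪ (A ∩ W.erase v).image i) (9600 * b + q)) :
    Colb G (Y ∪ (A ∩ W).image i) (9600 * b + q) ∨ Scheme G p := by
  by_cases hvA : v ∈ A
  swap
  · left
    have e1 : A ∩ W = A ∩ W.erase v := by
      ext z
      simp only [Finset.mem_inter, Finset.mem_erase]
      constructor
      · rintro ⟨h1, h2⟩
        exact ⟨h1, fun h3 => hvA (h3 ▸ h1), h2⟩
      · rintro ⟨h1, _, h2⟩
        exact ⟨h1, h2⟩
    rw [e1]
    exact hcol
  have hvX : v ∈ X := (Finset.mem_sdiff.1 h.vZ).1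
  have hvW : v ∈ W := h.e.XW hvX
  have e1 : Y ∪ (A ∩ W).image i = insert (i v) (Y ∪ (A ∩ W.erase v).image i) := by
    ext z
    simp only [Finset.mem_image, Finset.mem_union, Finset.mem_inter, Finset.mem_erase,
      Finset.mem_insert]
    constructor
    · rintro (h1 | ⟨x, ⟨h1, h2⟩, rfl⟩)
      · exact Or.inr (Or.inl h1)
      · by_cases hxv : x = v
        · exact Or.inl (congrArg i hxv)
        · exact Or.inr (Or.inr ⟨x, ⟨h1, hxv, h2⟩, rfl⟩)
    · rintro (rfl | h1 | ⟨x, ⟨h1, _, h2⟩, rfl⟩)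
      · exact Or.inr ⟨v, ⟨hvA, hvW⟩, rfl⟩
      · exact Or.inl h1
      · exact Or.inr ⟨x, ⟨h1, h2⟩, rfl⟩
  rw [e1]
  have hρ : 0 < ρ := lt_of_lt_of_le hb h.bρ
  obtain ⟨T, π, hT, hTc, hπ, hinj⟩ := partners hb h hA
  have hR : T.image π ⊆ (X \ S) \ A := by
    intro w hw
    obtain ⟨t, ht, rfl⟩ := Finset.mem_image.1 hw
    exact (hπ t ht).1
  have hRc : (T.image π).card ≤ ρ := Finset.card_image_le.trans hTc
  have hRX : T.image π ⊆ X \ A := fun w hw => by
    have h1 := hR hw
    simp only [Finset.mem_sdiff] at h1 ⊢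
    exact ⟨h1.1.1, h1.2⟩
  have hm : Massed (gam (G.comap i) S) (1920 * ρ) (X \ A) (T.image π) := by
    refine massed_X hρ h.e ?_ hA.e3 hR hRc
    intro z hz
    refine hA.e1 z (h.e.XW (Finset.mem_sdiff.1 hz).1) ?_
    exact (Nat.mul_le_mul_left 9600 h.bρ).trans (h.e.deg z hz)
  have hk : Knitted (gam (G.comap i) S) (X \ A) (T.image π) :=
    knit (gam (G.comap i) S) (1920 * ρ) ρ (by omega) (X \ A) (T.image π) hRX hRc hm
  have hvY : i v ∉ Y ∪ (A ∩ W.erase v).image i := by
    intro h1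
    rcases Finset.mem_union.1 h1 with h1 | h1
    · exact hPY v h1
    · obtain ⟨x, hx, hxv⟩ := Finset.mem_image.1 h1
      rw [hi hxv] at hx
      simp at hx
  refine kh G (9600 * b + q) p (Y ∪ (A ∩ W.erase v).image i) (i v) hvY
    (nb G Y (i v) ∪ (nb (G.comap i) (A ∩ W.erase v) v ∩ (S \ S1)).image i) ?_ hcol ?_
  · have h1 : (nb (G.comap i) (A ∩ W.erase v) v ∩ (S \ S1)).card ≤
        (nb (G.comap i) (S \ S1) v).card := by
      refine Finset.card_le_card fun t ht => ?_
      rw [Finset.mem_inter, mem_nbf] at ht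
      rw [mem_nbf]
      exact ⟨ht.2, ht.1.2⟩
    have h2 := h.bad
    have h3 := Finset.card_union_le (nb G Y (i v))
      ((nb (G.comap i) (A ∩ W.erase v) v ∩ (S \ S1)).image i)
    have h4 : ((nb (G.comap i) (A ∩ W.erase v) v ∩ (S \ S1)).image i).card ≤
        (nb (G.comap i) (A ∩ W.erase v) v ∩ (S \ S1)).card := Finset.card_image_le
    omega
  · intro f
    let g : V' → ℕ := fun w => if hw : ∃ t ∈ T, π t = w then (f (i hw.choose) : ℕ) else 0
    have hg : ∀ t ∈ T, g (π t) = (f (i t) : ℕ) := by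
      intro t ht
      have hw : ∃ t' ∈ T, π t' = π t := ⟨t, ht, rfl⟩
      have h1 : hw.choose = t :=
        hinj (by exact_mod_cast hw.choose_spec.1) (by exact_mod_cast ht) hw.choose_spec.2
      show (if hw : ∃ t' ∈ T, π t' = π t then (f (i hw.choose) : ℕ) else 0) = _
      rw [dif_pos hw, h1]
    obtain ⟨K, hK1, hK2, hK3, hK4⟩ := hk g
    refine ⟨fun j => i '' K j, ?_, ?_, ?_, ?_⟩
    · intro j
      rcases hK2 j with h1 | h1
      · left
        show i '' K j = ∅
        rw [h1, Set.image_empty]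
      · exact Or.inr (cn_image_emb hi (Cn.mono (G := gam (G.comap i) S)
          (G' := G.comap i) (fun a b hab => (gam_adj.1 hab).1) h1))
    · intro j k hjk
      exact Set.disjoint_image_of_injective hi (hK3 j k (fun h1 => hjk (Fin.ext h1)))
    · intro j
      rw [Set.disjoint_left]
      rintro _ ⟨z, hz, rfl⟩ hz'
      have h1 := hK1 j hz
      rw [Finset.mem_coe, Finset.mem_sdiff] at h1
      rw [Finset.mem_coe, Finset.mem_union] at hz'
      rcases hz' with h2 | h2
      · exact hPY z h2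
      · obtain ⟨x, hx, hxz⟩ := Finset.mem_image.1 h2
        rw [hi hxz] at hx
        exact h1.2 (Finset.mem_inter.1 hx).1
    · intro t ht htB
      rw [mem_nbf, Finset.mem_union] at ht
      rw [Finset.mem_union] at htB
      push Not at htB
      obtain ⟨ht1, ht2⟩ := ht
      rcases ht1 with h1 | h1
      · exact absurd (mem_nbf.2 ⟨h1, ht2⟩) htB.1
      · obtain ⟨x, hx, rfl⟩ := Finset.mem_image.1 h1
        have h5 : x ∈ nb (G.comap i) (A ∩ W.erase v) v := mem_nbf.2 ⟨hx, ht2⟩
        have hxT : x ∈ T := by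
          rw [hT, Finset.mem_sdiff]
          exact ⟨h5, fun h4 => htB.2
            (Finset.mem_image.2 ⟨x, Finset.mem_inter.2 ⟨h5, h4⟩, rfl⟩)⟩
        refine ⟨i (π x), ?_, (hπ x hxT).2⟩
        have h3 := hK4 (π x) (Finset.mem_image_of_mem π hxT)
        rw [hg x hxT] at h3
        exact ⟨_, h3, rfl⟩

/-- The step for `Y ∪ up (A ∩ W)`: `P` is a finite set, `G'` the graph induced on `P`, `SD` and `GoodA` are in `G'`, `Y` is disjoint from
`P`, `v ∈ P` has at most `q` neighbours in `Y`.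
PROOF.  The proof of `step` (`StC.lean`).  `v ∉ A`: nothing to do.  `v ∈ A`: `up (A ∩ W) = insert v (up (A ∩ W.erase v))`;
`partners`, `massed_X`, `knit` in `G'` as there; `kh` (`KH2.lean`) in `G` with `k = 9600 b + q`, the coloured set
`Y ∪ up (A ∩ W.erase v)`, `Bad = nb G Y v ∪ up (nb G' (A ∩ W.erase v) v ∩ (S \ S1))`, at most `q + c` elements, `c + p ≤ 9600 b`.
The hubs are the images of the sets `K i` of `Knitted` (`cn_image`, subsets of `P \ A`, so disjoint from `Y` and from
`up (A ∩ W.erase v)`); a neighbour `t ∉ Bad` of `v` in the coloured set is not in `Y`, so it is in `P` and in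
`T = nb G' (A ∩ W.erase v) v \ (S \ S1)`. -/
theorem step2 {G : SimpleGraph V} {P Y : Finset V} {b c ρ p q : ℕ} (hb : 0 < b)
    (hc : c + p ≤ 9600 * b) (hPY : Disjoint P Y)
    {W X S S1 A : Finset {x // x ∈ P}} {N : {x // x ∈ P} → Finset {x // x ∈ P}} {v : {x // x ∈ P}}
    (h : SD (G.comap (Subtype.val : {x // x ∈ P} → V)) b c ρ W X S S1 N v)
    (hA : GoodA (G.comap (Subtype.val : {x // x ∈ P} → V)) b ρ W X S S1 N A)
    (hq : (nb G Y v.1).card ≤ q)
    (hcol : Colb G (Y ∪ up (A ∩ W.erase v)) (9600 * b + q)) :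
    Colb G (Y ∪ up (A ∩ W)) (9600 * b + q) ∨ Scheme G p := by
  classical
  have hcol' : Colb G (Y ∪ up (A ∩ W)) (9600 * b + q) ∨ Scheme G p := by
    have key := step2_emb (G := G) (i := (Subtype.val : {x // x ∈ P} → V))
      Subtype.val_injective (Y := Y) (b := b) (c := c) (ρ := ρ) (p := p) (q := q) hb hc
      (fun x hx => Finset.disjoint_left.1 hPY x.2 hx) h hA hq (by
        refine Eq.mp (congrArg (fun S => Colb G S (9600 * b + q)) ?_) hcol
        ext z
        simp only [Finset.mem_union, mem_up, Finset.mem_image, Finset.mem_inter,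
          Finset.mem_erase, Subtype.exists, exists_and_right, exists_eq_right])
    refine Eq.mp (congrArg (fun S => Colb G S (9600 * b + q) ∨ Scheme G p) ?_) key
    ext z
    simp only [Finset.mem_union, mem_up, Finset.mem_image, Finset.mem_inter,
      Subtype.exists, exists_and_right, exists_eq_right]
  exact hcol'

end Pool.MP_a862e4_co.TW
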