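import Pool.Agent.W_a862e4_tw.ChA
import Pool.Agent.W_a862e4_tw.ChB

/-!
The extension theorem.
-/

set_option autoImplicit false
set_option linter.unusedSectionVars false

namespace Pool.MP_a862e4_co.TW

open Pool.MP_4929df_co.H91 Pool.MP_a862e4_co.H18
open scoped Classical

variable {V : Type*} [Fintype V]

private theorem ChC_up_empty {P : Finset V} : up (∅ : Finset {x // x ∈ P}) = ∅ := by
  simp [up]

private theorem ChC_card_up {P : Finset V} (S : Finset {x // x ∈ P}) : (up S).card = S.card := by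
  simp [up]

private theorem ChC_erase_eq {α : Type*} (i1 i2 : DecidableEq α) (W : Finset α) (v : α) :
    @Finset.erase α i1 W v = @Finset.erase α i2 W v := by
  rw [Subsingleton.elim i1 i2]

private theorem ChC_inter_not {P : Finset V} {A W : Finset {x // x ∈ P}} {v : {x // x ∈ P}}
    (hvA : v ∉ A) : A ∩ W = A ∩ W.erase v := by
  ext z
  simp only [Finset.mem_inter, Finset.mem_erase]
  constructor
  · rintro ⟨h1, h2⟩
    exact ⟨h1, fun h3 => hvA (h3 ▸ h1), h2⟩
  · rintro ⟨h1, _, h2⟩
    exact ⟨h1, h2⟩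

private theorem ChC_union_insert {P Y : Finset V} {A W : Finset {x // x ∈ P}} {v : {x // x ∈ P}}
    (hvA : v ∈ A) (hvW : v ∈ W) :
    Y ∪ up (A ∩ W) = insert v.1 (Y ∪ up (A ∩ W.erase v)) := by
  ext z
  simp only [Finset.mem_union, Finset.mem_insert, mem_up, Finset.mem_inter, Finset.mem_erase]
  constructor
  · rintro (h | ⟨hz, h1, h2⟩)
    · exact Or.inr (Or.inl h)
    · by_cases hzv : (⟨z, hz⟩ : {x // x ∈ P}) = v
      · left
        rw [← hzv]
      · exact Or.inr (Or.inr ⟨hz, h1, hzv, h2⟩)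
  · rintro (h | h | ⟨hz, h1, _, h2⟩)
    · right
      subst h
      exact ⟨v.2, hvA, hvW⟩
    · exact Or.inl h
    · exact Or.inr ⟨hz, h1, h2⟩

/-- Induction on the chain: `nil`: `up (A ∩ ∅) = ∅`; `low`: `greedy_step`, the coloured neighbours of `v` are at most `q` in `Y` and less
than `9600 b` in `up (A ∩ W.erase v)` (`nb G (up S) v` has the cardinality of `nb G' S v`); `cut`: `step2`. -/
theorem chain_colb {G : SimpleGraph V} {P Y : Finset V} {b c p q : ℕ} (hb : 0 < b)
    (hc : c + p ≤ 9600 * b) (hPY : Disjoint P Y) (hq : ∀ v ∈ P, (nb G Y v).card ≤ q)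
    (h : ¬ Scheme G p) {A W : Finset {x // x ∈ P}}
    (hch : Chain (G.comap (Subtype.val : {x // x ∈ P} → V)) b c A W)
    (hcol : Colb G Y (9600 * b + q)) : Colb G (Y ∪ up (A ∩ W)) (9600 * b + q) := by
  induction hch with
  | nil =>
    rw [Finset.inter_empty, ChC_up_empty, Finset.union_empty]
    exact hcol
  | low W v hvW hlow _ ih0 =>
    have ih : Colb G (Y ∪ up (A ∩ W.erase v)) (9600 * b + q) := by
      rw [ChC_erase_eq _ (fun a b => Classical.propDecidable (a = b))]
      exact ih0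
    by_cases hvA : v ∈ A
    · rw [ChC_union_insert hvA hvW]
      refine greedy_step G _ _ _ ih ?_
      have h1 : nb G (Y ∪ up (A ∩ W.erase v)) v.1 ⊆
          nb G Y v.1 ∪ up (nb (G.comap (Subtype.val : {x // x ∈ P} → V)) W v) := by
        intro z hz
        rw [mem_nbf, Finset.mem_union] at hz
        rw [Finset.mem_union]
        obtain ⟨hz1 | hz1, hz2⟩ := hz
        · exact Or.inl (mem_nbf.2 ⟨hz1, hz2⟩)
        · right
          obtain ⟨hzP, hz3⟩ := mem_up.1 hz1
          rw [Finset.mem_inter, Finset.mem_erase] at hz3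
          exact mem_up.2 ⟨hzP, mem_nbf.2 ⟨hz3.2.2, hz2⟩⟩
      have h2 := (Finset.card_le_card h1).trans (Finset.card_union_le _ _)
      rw [ChC_card_up] at h2
      have h3 := hq v.1 v.2
      omega
    · rw [ChC_inter_not hvA]
      exact ih
  | cut W v ρ X S S1 N hSD hGood _ ih0 =>
    have ih : Colb G (Y ∪ up (A ∩ W.erase v)) (9600 * b + q) := by
      rw [ChC_erase_eq _ (fun a b => Classical.propDecidable (a = b))]
      exact ih0
    rcases step2 hb hc hPY hSD hGood (hq v.1 v.2) ih with h1 | h1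
    · exact h1
    · exact absurd h1 h

/-- **Extension.**  `Y` and `P` disjoint, `|P| ≤ 2 ^ ℓ`, every vertex of `P` has at most `q` neighbours in `Y`; a labelling of `Y` with
`2 ^ 22` labels all of whose classes are `K`-colourable, `K = 9600 (p + 4 ℓ + 40) + q`, extends to `Y ∪ P`.
PROOF.  `b = p + 4 ℓ + 40`, `c = 9600 b - p`, `exists_chain` for the graph induced on `P` and `W = univ`, `dl_small` and `exists_label`
(as in `main`, `FinC.lean`; `Fintype.card P ≤ 2 ^ ℓ`) give `c' : P → Fin (2 ^ 22)` with a chain for every class; the new labelling is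
`c'` on `P` and `c0` on `Y`; the class of `i` is `Y.filter (c0 · = i) ∪ up (class of c')`; `chain_colb` with
`Y.filter (c0 · = i)`. -/
theorem extend {G : SimpleGraph V} {P Y : Finset V} {p q ℓ : ℕ} (h : ¬ Scheme G p)
    (hPY : Disjoint P Y) (hP : P.card ≤ 2 ^ ℓ) (hq : ∀ v ∈ P, (nb G Y v).card ≤ q)
    (c0 : V → Fin (2 ^ 22))
    (h0 : ∀ i, Colb G (Y.filter (fun v => c0 v = i)) (9600 * (p + 4 * ℓ + 40) + q)) :
    ∃ c1 : V → Fin (2 ^ 22), ∀ i,
      Colb G ((Y ∪ P).filter (fun v => c1 v = i)) (9600 * (p + 4 * ℓ + 40) + q) := by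
  obtain ⟨E, hE1, hE2⟩ := exists_chain (G.comap (Subtype.val : {x // x ∈ P} → V))
    (p + 4 * ℓ + 40) (9600 * (p + 4 * ℓ + 40) - p) (by omega) (by omega) Finset.univ
  have hn : Fintype.card {x // x ∈ P} ≤ 2 ^ ℓ := by
    rw [Fintype.card_coe]
    exact hP
  have hsmall := dl_small (p := p) hn
  obtain ⟨c', hc'⟩ := exists_label (r := 2 ^ 22) (by positivity) E (by
    refine lt_of_le_of_lt ?_ hsmall
    have e : (((2 ^ 22 : ℕ)) : ℝ) = (2 : ℝ) ^ 22 := by norm_num
    rw [Finset.card_univ] at hE1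
    rw [e]
    exact mul_le_mul_of_nonneg_left hE1 (by positivity))
  refine ⟨fun v => if hv : v ∈ P then c' ⟨v, hv⟩ else c0 v, fun i => ?_⟩
  have hch := hE2 _ (hc' i)
  have hPY' : Disjoint P (Y.filter (fun v => c0 v = i)) :=
    Finset.disjoint_of_subset_right (Finset.filter_subset _ _) hPY
  have hq' : ∀ v ∈ P, (nb G (Y.filter (fun v => c0 v = i)) v).card ≤ q := fun v hv =>
    (Finset.card_le_card (FinA_nb_mono (Finset.filter_subset _ _) v)).trans (hq v hv)
  have hres := chain_colb (by omega) (by omega) hPY' hq' h hch (h0 i)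
  have hset : (Y ∪ P).filter (fun v => (if hv : v ∈ P then c' ⟨v, hv⟩ else c0 v) = i) =
      Y.filter (fun v => c0 v = i) ∪ up (Finset.univ.filter (fun v => c' v = i) ∩ Finset.univ) := by
    ext z
    simp only [Finset.mem_filter, Finset.mem_union, mem_up, Finset.mem_inter, Finset.mem_univ,
      true_and, and_true]
    by_cases hz : z ∈ P
    · have hzY : z ∉ Y := Finset.disjoint_left.1 hPY hz
      simp [hz, hzY]
    · simp [hz]
  rw [hset]
  exact hres

end Pool.MP_a862e4_co.TW
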