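import Pool.Agent.W_a862e4_tw.Defs
import Pool.Agent.W_a862e4_h18.KH1

/-!
The counting lemma.
-/

set_option autoImplicit false
set_option linter.unusedSectionVars false

namespace Pool.MP_a862e4_co.TW

open Pool.MP_4929df_co.H91 Pool.MP_a862e4_co.H18
open scoped Classical

variable {V : Type*} [Fintype V]

/-- witnesses for pairs of elements of `Q` -/
private theorem Cnt_wit {G : SimpleGraph V} {Q : Finset V} (F : Finset V) :
    ∃ (T : Finset (Sym2 V)) (w : Sym2 V → V), T ⊆ Q.sym2 ∧ (∀ e ∈ T, w e ∈ F) ∧
      (∀ e ∈ T, ∀ e' ∈ T, w e = w e' → e = e') ∧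
      (∀ a b, s(a, b) ∈ T → G.Adj (w s(a, b)) a ∧ G.Adj (w s(a, b)) b) ∧
      (∀ v ∈ F, (∀ e ∈ T, w e ≠ v) → ∀ a ∈ nb G Q v, ∀ b ∈ nb G Q v, a ≠ b → s(a, b) ∈ T) := by
  induction F using Finset.induction_on with
  | empty =>
    refine ⟨∅, fun e => (Quot.out e).1, by simp, by simp, by simp, by simp, by simp⟩
  | insert v F hv ih =>
    obtain ⟨T, w, hTQ, hwF, hinj, hadj, hall⟩ := ih
    by_cases hex : ∃ a ∈ nb G Q v, ∃ b ∈ nb G Q v, a ≠ b ∧ s(a, b) ∉ T
    · obtain ⟨a, ha, b, hb, hab, habT⟩ := hex
      have hne : ∀ e ∈ T, e ≠ s(a, b) := fun e he h => habT (h ▸ he)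
      have hw : ∀ e ∈ T, Function.update w s(a, b) v e = w e := fun e he =>
        Function.update_of_ne (hne e he) _ _
      have hw0 : Function.update w s(a, b) v s(a, b) = v := Function.update_self _ _ _
      rw [mem_nbf] at ha hb
      refine ⟨insert s(a, b) T, Function.update w s(a, b) v, ?_, ?_, ?_, ?_, ?_⟩
      · intro e he
        rw [Finset.mem_insert] at he
        rcases he with rfl | he
        · rw [Finset.mk_mem_sym2_iff]
          exact ⟨ha.1, hb.1⟩
        · exact hTQ he
      · intro e he
        rw [Finset.mem_insert] at he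
        rcases he with rfl | he
        · rw [hw0]; exact Finset.mem_insert_self _ _
        · rw [hw e he]; exact Finset.mem_insert_of_mem (hwF e he)
      · intro e he e' he' hee
        rw [Finset.mem_insert] at he he'
        rcases he with rfl | he <;> rcases he' with rfl | he'
        · rfl
        · rw [hw0, hw e' he'] at hee
          exact absurd (hee ▸ hwF e' he') hv
        · rw [hw0, hw e he] at hee
          exact absurd (hee ▸ hwF e he) hv
        · rw [hw e he, hw e' he'] at hee
          exact hinj e he e' he' hee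
      · intro c d hcd
        rw [Finset.mem_insert] at hcd
        rcases hcd with hcd | hcd
        · rw [hcd, hw0]
          rcases Sym2.eq_iff.1 hcd with ⟨rfl, rfl⟩ | ⟨rfl, rfl⟩
          · exact ⟨ha.2, hb.2⟩
          · exact ⟨hb.2, ha.2⟩
        · rw [hw _ hcd]
          exact hadj c d hcd
      · intro u hu hnu c hc d hd hcd
        rw [Finset.mem_insert] at hu
        rcases hu with rfl | hu
        · exact absurd hw0 (hnu _ (Finset.mem_insert_self _ _))
        · refine Finset.mem_insert_of_mem (hall u hu ?_ c hc d hd hcd)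
          intro e he heu
          exact hnu e (Finset.mem_insert_of_mem he) ((hw e he).trans heu)
    · push Not at hex
      refine ⟨T, w, hTQ, fun e he => Finset.mem_insert_of_mem (hwF e he), hinj, hadj, ?_⟩
      intro u hu hnu c hc d hd hcd
      rw [Finset.mem_insert] at hu
      rcases hu with rfl | hu
      · exact hex c hc d hd hcd
      · exact hall u hu hnu c hc d hd hcd

/-- If `G` has no `p`-scheme, at most `|Q|²` vertices outside `Q` have at least `p` neighbours in `Q`.
PROOF.  By induction on `F' ⊆ F` there are a set `T` of unordered pairs of distinct elements of `Q` (`Finset (Sym2 V)`, contained in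
`Q.sym2`) and an injective map `w : T → F'` such that `w {a, b}` is adjacent to `a` and `b`, and for every `v ∈ F'` not in the
image of `w` all pairs of distinct neighbours of `v` in `Q` are in `T` (new vertex `v`: if some pair of its neighbours is not in
`T`, give it the witness `v`).  For `F' = F`: if some `v ∈ F` is not in the image, take `p` of its neighbours
`u 1, ..., u p ∈ Q` and `C i j = {u i, u j, w {u i, u j}}`, connected; for four distinct indices the sets are disjoint (`w` injective,
`w _ ∈ F`, `Q` and `F` disjoint): a `p`-scheme (use `connected_of_cn` of `KH1.lean`, `cn_pair`, `Cn.insert`).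
Otherwise `|F| ≤ |T| ≤ |Q.sym2| = (|Q| + 1).choose 2 ≤ |Q|²`. -/
theorem count {G : SimpleGraph V} {p : ℕ} (h : ¬ Scheme G p) {Q F : Finset V} (hd : Disjoint Q F)
    (hF : ∀ v ∈ F, p ≤ (nb G Q v).card) : F.card ≤ Q.card ^ 2 := by
  obtain ⟨T, w, hTQ, hwF, hinj, hadj, hall⟩ := Cnt_wit (G := G) (Q := Q) F
  by_cases hex : ∃ v ∈ F, ∀ e ∈ T, w e ≠ v
  · exfalso
    obtain ⟨v, hv, hnv⟩ := hex
    have hall' := hall v hv hnv
    have hp := hF v hv
    let u : Fin p → V := fun i => ((nb G Q v).equivFin.symm (Fin.castLE hp i)).1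
    have hu : ∀ i, u i ∈ nb G Q v := fun i => ((nb G Q v).equivFin.symm (Fin.castLE hp i)).2
    have huinj : Function.Injective u := by
      intro i j hij
      have h1 := Subtype.ext hij
      exact Fin.castLE_injective hp ((nb G Q v).equivFin.symm.injective h1)
    have hT : ∀ i j, i ≠ j → s(u i, u j) ∈ T := fun i j hij =>
      hall' _ (hu i) _ (hu j) (fun he => hij (huinj he))
    have huQ : ∀ i, u i ∈ Q := fun i => (mem_nbf.1 (hu i)).1
    have hQF : ∀ x, x ∈ Q → x ∈ F → False := fun x h1 h2 => Finset.disjoint_left.1 hd h1 h2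
    refine h ⟨u, huinj, fun i j => {x | x = u i ∨ x = u j ∨ x = w s(u i, u j)}, ?_, ?_, ?_⟩
    · intro i j
      ext x
      simp only [Set.mem_setOf_eq]
      rw [Sym2.eq_swap]
      tauto
    · intro i j hij
      refine ⟨Or.inl rfl, Or.inr (Or.inl rfl), connected_of_cn ?_⟩
      have ha := hadj _ _ (hT i j hij)
      have h1 : Cn G {u i, w s(u i, u j)} := cn_pair ha.1.symm
      have h2 := h1.insert (a := w s(u i, u j)) (b := u j) (by simp) ha.2
      have e : ({x | x = u i ∨ x = u j ∨ x = w s(u i, u j)} : Set V) =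
          insert (u j) {u i, w s(u i, u j)} := by
        ext x
        simp only [Set.mem_setOf_eq, Set.mem_insert_iff, Set.mem_singleton_iff]
        tauto
      rw [← e] at h2
      exact h2
    · intro i j k l hij hik hil hjk hjl hkl
      rw [Set.disjoint_left]
      rintro x (hx | hx | hx) (hy | hy | hy)
      · exact hik (huinj (hx.symm.trans hy))
      · exact hil (huinj (hx.symm.trans hy))
      · exact hQF x (hx ▸ huQ i) (hy ▸ hwF _ (hT k l hkl))
      · exact hjk (huinj (hx.symm.trans hy))
      · exact hjl (huinj (hx.symm.trans hy))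
      · exact hQF x (hx ▸ huQ j) (hy ▸ hwF _ (hT k l hkl))
      · exact hQF x (hy ▸ huQ k) (hx ▸ hwF _ (hT i j hij))
      · exact hQF x (hy ▸ huQ l) (hx ▸ hwF _ (hT i j hij))
      · have he := hinj _ (hT i j hij) _ (hT k l hkl) (hx.symm.trans hy)
        rcases Sym2.eq_iff.1 he with ⟨h1, _⟩ | ⟨h1, _⟩
        · exact hik (huinj h1)
        · exact hil (huinj h1)
  · push Not at hex
    have h1 : F ⊆ T.image w := by
      intro v hv
      obtain ⟨e, he, hev⟩ := hex v hv
      exact Finset.mem_image.2 ⟨e, he, hev⟩
    have h2 : F.card ≤ Q.sym2.card :=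
      (Finset.card_le_card h1).trans (Finset.card_image_le.trans (Finset.card_le_card hTQ))
    rw [Finset.card_sym2, Nat.choose_two_right] at h2
    refine h2.trans ?_
    have h3 : (Q.card + 1) * (Q.card + 1 - 1) ≤ 2 * Q.card ^ 2 := by
      rcases Nat.eq_zero_or_pos Q.card with h0 | h0
      · rw [h0]; norm_num
      · rw [Nat.add_sub_cancel]
        nlinarith
    omega

end Pool.MP_a862e4_co.TW
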