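import Pool.Agent.W_a862e4_tw.Defs

/-!
The descendants in an elimination order.
-/

set_option autoImplicit false
set_option linter.unusedSectionVars false

namespace Pool.MP_a862e4_co.TW

open Pool.MP_4929df_co.H91 Pool.MP_a862e4_co.H18
open scoped Classical

variable {V : Type*} [Fintype V]

theorem De_self (H : SimpleGraph V) (o : V → ℕ) (u : V) : u ∈ De H o u := by
  refine ⟨{u}, cn_singleton H u, rfl, rfl, ?_⟩
  intro x hx
  have : x = u := hx
  rw [this]

theorem De_ge {H : SimpleGraph V} {o : V → ℕ} {u x : V} (h : x ∈ De H o u) : o u ≤ o x := by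
  obtain ⟨C, _, _, hx, hge⟩ := h
  exact hge x hx

/-- union of connected sets containing `u` (`cn_of_base`, `Cn.subset_of_closed`) -/
theorem De_cn (H : SimpleGraph V) (o : V → ℕ) (u : V) : Cn H (De H o u) := by
  refine cn_of_base (x := u) (De_self H o u) fun A hA huA hcl => ?_
  refine Set.Subset.antisymm hA ?_
  rintro w ⟨C, hC, huC, hwC, hge⟩
  have hCD : C ⊆ De H o u := fun x hx => ⟨C, hC, huC, hx, hge⟩
  exact hC.subset_of_closed ⟨u, huC, huA⟩ (fun a _ haA b hb hab => hcl a haA b (hCD hb) hab) hwC

/-- `De u` is a component of the graph on the vertices that are not earlier than `u` -/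
theorem De_adj {H : SimpleGraph V} {o : V → ℕ} {u x y : V} (h : x ∈ De H o u) (hxy : H.Adj x y)
    (hy : o u ≤ o y) : y ∈ De H o u := by
  obtain ⟨C, hC, huC, hxC, hge⟩ := h
  refine ⟨insert y C, hC.insert hxC hxy, Set.mem_insert_of_mem _ huC, Set.mem_insert _ _, ?_⟩
  intro z hz
  rcases Set.mem_insert_iff.1 hz with rfl | hz
  · exact hy
  · exact hge z hz

theorem De_of_cn {H : SimpleGraph V} {o : V → ℕ} {u : V} {C : Set V} (hC : Cn H C)
    (hge : ∀ x ∈ C, o u ≤ o x) (hne : ∃ x ∈ C, x ∈ De H o u) : C ⊆ De H o u := by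
  obtain ⟨x, hxC, hxD⟩ := hne
  exact hC.subset_of_closed ⟨x, hxC, hxD⟩ (fun a _ haD b hb hab => De_adj haD hab (hge b hb))

theorem De_sub {H : SimpleGraph V} {o : V → ℕ} {u w : V} (h : w ∈ De H o u) :
    De H o w ⊆ De H o u :=
  De_of_cn (De_cn H o w) (fun _ hx => (De_ge h).trans (De_ge hx)) ⟨w, De_self H o w, h⟩

/-- `De w` is connected, consists of vertices not earlier than `w`, hence not earlier than `u`, and meets
`De u`. -/
theorem De_nested {H : SimpleGraph V} {o : V → ℕ} {u w x : V} (hu : x ∈ De H o u)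
    (hw : x ∈ De H o w) (h : o u ≤ o w) : w ∈ De H o u :=
  De_of_cn (De_cn H o w) (fun _ hx => h.trans (De_ge hx)) ⟨x, hw, hu⟩ (De_self H o w)

private theorem De_lt {H : SimpleGraph V} {o : V → ℕ} {u x w : V}
    (hx : x ∈ De H o u) (hxw : H.Adj x w) (hw : w ∉ De H o u) : o w < o u := by
  by_contra hcon
  exact hw (De_adj hx hxw (not_lt.1 hcon))

private theorem De_bd_aux {H : SimpleGraph V} {o : V → ℕ} {k : ℕ} (hE : Elim H o k) {N : ℕ}
    (hN : ∀ v, o v ≤ N) : ∀ (m : ℕ) (u : V), N - o u = m → ∀ (n : ℕ) (x w : V), o x = n →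
      x ∈ De H o u → H.Adj x w → w ∉ De H o u → H.Adj u w := by
  intro m
  induction m using Nat.strong_induction_on with
  | _ m ihm =>
    intro u hu n
    induction n using Nat.strong_induction_on with
    | _ n ihn =>
      intro x w hxn hx hxw hw
      by_cases hxu : x = u
      · rw [← hxu]
        exact hxw
      · have hlt : o u < o x := lt_of_le_of_ne (De_ge hx) fun h => hxu (hE.inj h).symm
        have hsub : De H o x ⊆ De H o u := De_sub hx
        have hux : u ∉ De H o x := fun h => absurd (De_ge h) (not_le.2 hlt)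
        have hne : De H o x ≠ De H o u := by
          intro h
          rw [h] at hux
          exact hux (De_self H o u)
        obtain ⟨a, ha, y, hy, hyx, hay⟩ :=
          (De_cn H o u).exists_adj hsub ⟨x, De_self H o x⟩ hne
        have hxN := hN x
        have hxy : H.Adj x y := ihm (N - o x) (by omega) x rfl (o a) a y rfl ha hay hyx
        have hyx' : o y < o x := De_lt ha hay hyx
        have hwu : o w < o u := De_lt hx hxw hw
        have huy : o u ≤ o y := De_ge hy
        have hyw : y ≠ w := by
          rintro rfl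
          omega
        have hadj : H.Adj y w := hE.clique x y w hxy hxw hyx' (by omega) hyw
        exact ihn (o y) (by omega) y w rfl hy hadj hw

/-- The neighbours of `De u` outside of `De u` are earlier neighbours of `u`.
PROOF.  `o w < o u` by `De_adj`.  `H.Adj u w`: downward induction on `o u` (for example on the number of
vertices with larger `o`), and for fixed `u` induction on `o x`, `x ∈ De u`.  `x = u`: nothing to prove.
Otherwise `o u < o x`, `De x ⊆ De u` (`De_sub`), `u ∉ De x` (`De_ge`), so `Cn.exists_adj` for `De_cn u` and the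
subset `De x` gives `a ∈ De x`, `y ∈ De u \ De x`, `H.Adj a y`; by the outer induction for `x`: `H.Adj x y`,
`o y < o x`.  Also `H.Adj x w`, `o w < o u ≤ o y < o x`, `w ≠ y`, so `H.Adj w y` (`clique` at `x`), and the
inner induction for `y` gives `H.Adj u w`. -/
theorem De_bd {H : SimpleGraph V} {o : V → ℕ} {k : ℕ} (hE : Elim H o k) {u x w : V}
    (hx : x ∈ De H o u) (hxw : H.Adj x w) (hw : w ∉ De H o u) : w ∈ bk H o u := by
  rw [mem_bk]
  refine ⟨?_, De_lt hx hxw hw⟩
  exact De_bd_aux hE (N := Finset.univ.sup o) (fun v => Finset.le_sup (Finset.mem_univ v)) _ u rfl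
    _ x w rfl hx hxw hw

end Pool.MP_a862e4_co.TW
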