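import Pool.Agent.W_a862e4_h18.FinC

/-!
MP_a862e4_co (p-schemes), helper41 [TW]: linear order p-schemes in graphs with treewidth at most
`2 ^ (c χ)`.  Overview: proofs row 576.  Definitions used by all files of the project.

`Cn`, `Comp`, `exists_comp`, `Cn.exists_adj`, ... are in `Pool.Agent.W_4929df_h91.Basic`
(namespace `Pool.MP_4929df_co.H91`, opened below); `nb`, `mem_nbf`, `Colb`, `Scheme`, `SD`, `GoodA`, `Ex`,
`ind`, `dl` and the whole proof of the bound by the number of vertices are in `Pool.Agent.W_a862e4_h18`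
(namespace `Pool.MP_a862e4_co.H18`, opened below).
-/

set_option autoImplicit false
set_option linter.unusedSectionVars false

namespace Pool.MP_a862e4_co.TW

open Pool.MP_4929df_co.H91 Pool.MP_a862e4_co.H18
open scoped Classical

variable {V : Type*} [Fintype V]

/-- the earlier neighbours of `v` (order `o`) -/
noncomputable def bk (H : SimpleGraph V) (o : V → ℕ) (v : V) : Finset V :=
  Finset.univ.filter (fun a => H.Adj v a ∧ o a < o v)

theorem mem_bk {H : SimpleGraph V} {o : V → ℕ} {v a : V} : a ∈ bk H o v ↔ H.Adj v a ∧ o a < o v := by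
  simp [bk]

/-- the bag of `v` -/
noncomputable def bag (H : SimpleGraph V) (o : V → ℕ) (v : V) : Finset V := insert v (bk H o v)

/-- `o` is an elimination order of width at most `k` of the (chordal) graph `H` -/
structure Elim (H : SimpleGraph V) (o : V → ℕ) (k : ℕ) : Prop where
  inj : Function.Injective o
  clique : ∀ v a b, H.Adj v a → H.Adj v b → o a < o v → o b < o v → a ≠ b → H.Adj a b
  card : ∀ v, (bk H o v).card ≤ k

/-- the descendants of `u`: the vertices reached from `u` through vertices that are not earlier than `u` -/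
def De (H : SimpleGraph V) (o : V → ℕ) (u : V) : Set V :=
  {w | ∃ C : Set V, Cn H C ∧ u ∈ C ∧ w ∈ C ∧ ∀ x ∈ C, o u ≤ o x}

/-- the union of the bags of `M` -/
noncomputable def UU (H : SimpleGraph V) (o : V → ℕ) (M : Finset V) : Finset V :=
  M.biUnion (bag H o)

theorem mem_UU {H : SimpleGraph V} {o : V → ℕ} {M : Finset V} {x : V} :
    x ∈ UU H o M ↔ ∃ t ∈ M, x = t ∨ (H.Adj t x ∧ o x < o t) := by
  simp [UU, bag, mem_bk]

theorem subset_UU (H : SimpleGraph V) (o : V → ℕ) (M : Finset V) : M ⊆ UU H o M :=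
  fun t ht => mem_UU.2 ⟨t, ht, Or.inl rfl⟩

/-- the last common ancestor -/
def IsLca (H : SimpleGraph V) (o : V → ℕ) (a b v : V) : Prop :=
  a ∈ De H o v ∧ b ∈ De H o v ∧ ∀ u, a ∈ De H o u → b ∈ De H o u → o u ≤ o v

/-- closure under last common ancestors -/
noncomputable def lcl (H : SimpleGraph V) (o : V → ℕ) (A : Finset V) : Finset V :=
  Finset.univ.filter (fun v => ∃ a ∈ A, ∃ b ∈ A, IsLca H o a b v)

theorem mem_lcl {H : SimpleGraph V} {o : V → ℕ} {A : Finset V} {v : V} :
    v ∈ lcl H o A ↔ ∃ a ∈ A, ∃ b ∈ A, IsLca H o a b v := by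
  simp [lcl]

/-- every nonempty `M ∩ De z` has a top element -/
def Clo (H : SimpleGraph V) (o : V → ℕ) (M : Finset V) : Prop :=
  ∀ z, (∃ m ∈ M, m ∈ De H o z) → ∃ m ∈ M, m ∈ De H o z ∧ ∀ m' ∈ M, m' ∈ De H o z → m' ∈ De H o m

/-- the neighbours of `Z` outside of `Z` -/
noncomputable def NZ (H : SimpleGraph V) (Z : Set V) : Finset V :=
  Finset.univ.filter (fun y => y ∉ Z ∧ ∃ x ∈ Z, H.Adj x y)

theorem mem_NZ {H : SimpleGraph V} {Z : Set V} {y : V} :
    y ∈ NZ H Z ↔ y ∉ Z ∧ ∃ x ∈ Z, H.Adj x y := by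
  simp [NZ]

/-- the part of `A` in `Z` -/
noncomputable def prt (A : Finset V) (Z : Set V) : Finset V := A.filter (fun x => x ∈ Z)

theorem mem_prt {A : Finset V} {Z : Set V} {x : V} : x ∈ prt A Z ↔ x ∈ A ∧ x ∈ Z := by
  simp [prt]

/-- the vertices outside `X` with at least `p` neighbours in `X` -/
noncomputable def FF (G : SimpleGraph V) (p : ℕ) (X : Finset V) : Finset V :=
  Finset.univ.filter (fun v => v ∉ X ∧ p ≤ (nb G X v).card)

theorem mem_FF {G : SimpleGraph V} {p : ℕ} {X : Finset V} {v : V} :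
    v ∈ FF G p X ↔ v ∉ X ∧ p ≤ (nb G X v).card := by
  simp [FF]

/-- `W` is peeled by low degree vertices and steps for which `A` is good -/
inductive Chain (G : SimpleGraph V) (b c : ℕ) (A : Finset V) : Finset V → Prop
  | nil : Chain G b c A ∅
  | low (W : Finset V) (v : V) : v ∈ W → (nb G W v).card < 9600 * b →
      Chain G b c A (W.erase v) → Chain G b c A W
  | cut (W : Finset V) (v : V) (ρ : ℕ) (X S S1 : Finset V) (N : V → Finset V) :
      SD G b c ρ W X S S1 N v → GoodA G b ρ W X S S1 N A →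
      Chain G b c A (W.erase v) → Chain G b c A W

/-- built from blocks of at most `n` vertices, each vertex of a block having at most `q` neighbours
in the earlier blocks -/
inductive BD (G : SimpleGraph V) (q n : ℕ) : Finset V → Prop
  | nil : BD G q n ∅
  | add (U P : Finset V) : BD G q n U → Disjoint U P → P.card ≤ n →
      (∀ v ∈ P, (nb G U v).card ≤ q) → BD G q n (U ∪ P)

/-- embedding of finite sets of a subtype -/
noncomputable def up {P : Finset V} (S : Finset {x // x ∈ P}) : Finset V :=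
  S.map (Function.Embedding.subtype _)

theorem mem_up {P : Finset V} {S : Finset {x // x ∈ P}} {v : V} :
    v ∈ up S ↔ ∃ h : v ∈ P, (⟨v, h⟩ : {x // x ∈ P}) ∈ S := by
  simp [up]

end Pool.MP_a862e4_co.TW
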