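import Pool.Agent.W_a862e4_tw.Defs

/-!
A tree decomposition gives an elimination order.
-/

set_option autoImplicit false
set_option linter.unusedSectionVars false

namespace Pool.MP_a862e4_co.TW

open Pool.MP_4929df_co.H91 Pool.MP_a862e4_co.H18
open scoped Classical

variable {V : Type*} [Fintype V]

private theorem TDec_walk {ι : Type*} (T : SimpleGraph ι) (S : Set ι) (h : (T.induce S).Preconnected)
    {x y : ι} (hx : x ∈ S) (hy : y ∈ S) : ∃ p : T.Walk x y, p.IsPath ∧ ∀ z ∈ p.support, z ∈ S := by
  obtain ⟨w⟩ := h ⟨x, hx⟩ ⟨y, hy⟩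
  refine ⟨(w.map (SimpleGraph.Embedding.induce S).toHom).bypass, SimpleGraph.Walk.bypass_isPath _, ?_⟩
  intro z hz
  have h1 := SimpleGraph.Walk.support_bypass_subset_support _ hz
  have h2 := SimpleGraph.Walk.support_map (SimpleGraph.Embedding.induce S).toHom w
  have h3 : z ∈ List.map (SimpleGraph.Embedding.induce S).toHom w.support := h2 ▸ h1
  obtain ⟨a, _, rfl⟩ := List.mem_map.1 h3
  exact a.2

private theorem TDec_drop {ι : Type*} (T : SimpleGraph ι) {s r x : ι} (w : T.Walk s r)
    (hwl : w.length = T.dist s r) (hx : x ∈ w.support) (hne : x ≠ s) : T.dist x r < T.dist s r := by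
  have h2 : (w.dropUntil x hx).length < w.length := by
    have h3 := congrArg SimpleGraph.Walk.length (w.take_spec hx)
    rw [SimpleGraph.Walk.length_append] at h3
    have h4 : 0 < (w.takeUntil x hx).length := by
      rw [Nat.pos_iff_ne_zero]
      intro h5
      exact hne (SimpleGraph.Walk.eq_of_length_eq_zero h5).symm
    omega
  calc T.dist x r ≤ (w.dropUntil x hx).length := SimpleGraph.dist_le _
    _ < w.length := h2
    _ = T.dist s r := hwl

private theorem TDec_path {ι : Type*} (T : SimpleGraph ι) {S : Set ι} {t s r : ι} (q : T.Walk t s)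
    (hq : q.IsPath) (hqS : ∀ z ∈ q.support, z ∈ S) (w : T.Walk s r) (hw : w.IsPath)
    (hwl : w.length = T.dist s r) (hmin : ∀ x ∈ S, T.dist s r ≤ T.dist x r) :
    (q.append w).IsPath := by
  apply SimpleGraph.Walk.IsPath.mk'
  rw [SimpleGraph.Walk.support_append]
  have hn : w.support.Nodup := hw.support_nodup
  rw [← SimpleGraph.Walk.cons_tail_support, List.nodup_cons] at hn
  refine List.Nodup.append hq.support_nodup hn.2 ?_
  intro x hx hx'
  have hxs : x ≠ s := fun h => hn.1 (h ▸ hx')
  have := TDec_drop T w hwl (List.mem_of_mem_tail hx') hxs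
  exact absurd (hmin x (hqS x hx)) (by omega)

private theorem TDec_key {ι : Type*} (T : SimpleGraph ι) (hT : T.IsTree) {S S' : Set ι}
    (hS : (T.induce S).Preconnected) (hS' : (T.induce S').Preconnected) {r s s' t : ι}
    (hs : s ∈ S) (hs' : s' ∈ S') (ht : t ∈ S) (ht' : t ∈ S')
    (hm : ∀ x ∈ S, T.dist s r ≤ T.dist x r) (hm' : ∀ x ∈ S', T.dist s' r ≤ T.dist x r)
    (hle : T.dist s' r ≤ T.dist s r) : s ∈ S' := by
  obtain ⟨q, hq, hqS⟩ := TDec_walk T S hS ht hs
  obtain ⟨q', hq', hqS'⟩ := TDec_walk T S' hS' ht' hs'
  obtain ⟨w, hw, hwl⟩ := hT.connected.exists_path_of_dist s r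
  obtain ⟨w', hw', hwl'⟩ := hT.connected.exists_path_of_dist s' r
  have h1 := TDec_path T q hq hqS w hw hwl hm
  have h2 := TDec_path T q' hq' hqS' w' hw' hwl' hm'
  have h3 : q.append w = q'.append w' := by
    have := hT.isAcyclic.path_unique ⟨_, h1⟩ ⟨_, h2⟩
    exact congrArg Subtype.val this
  have h4 : s ∈ (q'.append w').support := by
    rw [← h3, SimpleGraph.Walk.mem_support_append_iff]
    exact Or.inl (SimpleGraph.Walk.end_mem_support _)
  rw [SimpleGraph.Walk.mem_support_append_iff] at h4
  rcases h4 with h4 | h4
  · exact hqS' s h4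
  · by_cases he : s = s'
    · rw [he]; exact hs'
    · exact absurd (TDec_drop T w' hwl' h4 he) (by omega)

/-- `u` and `v` are different and in a common bag -/
def share {ι : Type*} (B : ι → Finset V) : SimpleGraph V where
  Adj u v := u ≠ v ∧ ∃ t, u ∈ B t ∧ v ∈ B t
  symm := ⟨fun _ _ h => ⟨h.1.symm, h.2.imp fun _ ht => ht.symm⟩⟩
  loopless := ⟨fun _ h => h.1 rfl⟩

/-- `T` a finite tree, `B` bags with at most `k + 1` elements which cover all vertices, the bags containing a vertex form a
connected subgraph of `T`.  Then the graph `share B` has an elimination order of width at most `k`.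
PROOF (leaf induction).  Induction on the number of nodes, for all trees; it is convenient to prove: for every such family (not
necessarily covering `V`) there is an injective `o : V → ℕ` with, for every `v` in some bag, the earlier neighbours of `v` in `share B`
pairwise adjacent and at most `k` in number (vertices in no bag are isolated in `share B`).  One node: any injective `o`.  Otherwise let `l` be a leaf of
`T` with neighbour `s` (`SimpleGraph.IsTree` has leaves: `IsTree.exists_vert_degree_one_of_nontrivial` or similar; removing `l` leaves a tree).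
Then `B l ∩ B t ⊆ B s` for all `t ≠ l` (connectedness).  Take the order of the family without `l` and put the vertices which are only in
`B l` last: their earlier neighbours are in `B l`, a clique with at most `k` other elements.  For `v` in another bag the earlier
neighbours in `share B` are the same as without `l` (a common bag `l` can be replaced by `s`).
PROOF (rooted).  Alternatively: root `T` at `r`, let `top v` be the node nearest to `r` whose bag contains `v`, order by the
distance of `top v` from `r` (ties arbitrary): the earlier neighbours of `v` are in the bag of `top v`. -/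
theorem exists_elim {ι : Type*} [Fintype ι] (T : SimpleGraph ι) (hT : T.IsTree) (B : ι → Finset V)
    (k : ℕ) (hk : ∀ t, (B t).card ≤ k + 1) (hcov : ∀ v, ∃ t, v ∈ B t)
    (hconn : ∀ v, (T.induce {t | v ∈ B t}).Preconnected) :
    ∃ o : V → ℕ, Elim (share B) o k := by
  obtain ⟨r⟩ := hT.connected.nonempty
  have htop : ∀ v, ∃ t, v ∈ B t ∧ ∀ x, v ∈ B x → T.dist t r ≤ T.dist x r := by
    intro v
    obtain ⟨t, ht, hm⟩ := Set.exists_min_image {t | v ∈ B t} (fun t => T.dist t r)
      (Set.toFinite _) (hcov v)
    exact ⟨t, ht, fun x hx => hm x hx⟩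
  choose top htop hmin using htop
  set e := Fintype.equivFin V with he
  set n := Fintype.card V with hn
  have hen : ∀ v, (e v : ℕ) < n := fun v => (e v).2
  refine ⟨fun v => T.dist (top v) r * n + e v, ?_⟩
  have hle : ∀ a v, T.dist (top a) r * n + (e a : ℕ) < T.dist (top v) r * n + (e v : ℕ) →
      T.dist (top a) r ≤ T.dist (top v) r := by
    intro a v h
    by_contra hcon
    push Not at hcon
    have h1 : (T.dist (top v) r + 1) * n ≤ T.dist (top a) r * n := Nat.mul_le_mul_right _ hcon
    have h2 := hen v
    rw [Nat.add_mul, Nat.one_mul] at h1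
    omega
  have key : ∀ v a, (share B).Adj v a →
      T.dist (top a) r * n + (e a : ℕ) < T.dist (top v) r * n + (e v : ℕ) → a ∈ B (top v) := by
    intro v a hva h
    obtain ⟨hne, t, ht1, ht2⟩ := hva
    exact TDec_key T hT (S := {t | v ∈ B t}) (S' := {t | a ∈ B t}) (hconn v) (hconn a)
      (htop v) (htop a) ht1 ht2 (fun x hx => hmin v x hx) (fun x hx => hmin a x hx) (hle a v h)
  refine ⟨?_, ?_, ?_⟩
  · intro u v h
    have h1 : (T.dist (top u) r * n + (e u : ℕ)) % n = (T.dist (top v) r * n + (e v : ℕ)) % n :=
      congrArg (fun x => x % n) h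
    rw [Nat.mul_add_mod_self_right, Nat.mul_add_mod_self_right, Nat.mod_eq_of_lt (hen u),
      Nat.mod_eq_of_lt (hen v)] at h1
    exact e.injective (Fin.ext h1)
  · intro v a b hva hvb ha hb hab
    exact ⟨hab, top v, key v a hva ha, key v b hvb hb⟩
  · intro v
    have h1 : bk (share B) (fun v => T.dist (top v) r * n + (e v : ℕ)) v ⊆ (B (top v)).erase v := by
      intro a ha
      rw [mem_bk] at ha
      exact Finset.mem_erase.2 ⟨ha.1.1.symm, key v a ha.1 ha.2⟩
    have h2 := Finset.card_le_card h1
    rw [Finset.card_erase_of_mem (htop v)] at h2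
    have h3 := hk (top v)
    omega

end Pool.MP_a862e4_co.TW
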