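import Pool.Agent.W_a862e4_tw.Main
import Pool.Agent.W_a862e4_tw.TDec

/-!
Graphs of bounded treewidth.
-/

set_option autoImplicit false
set_option linter.unusedSectionVars false

namespace Pool.MP_a862e4_co.TW

open Pool.MP_4929df_co.H91 Pool.MP_a862e4_co.H18
open scoped Classical

/-- `exists_elim` (`G ≤ share B`), `main_elim` and arithmetic (`Nat.clog 2 (w + 1) ≤ Nat.log 2 (w + 1) + 1`). -/
theorem final {V : Type*} [Fintype V] (G : SimpleGraph V) {ι : Type*} [Fintype ι]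
    (T : SimpleGraph ι) (hT : T.IsTree) (B : ι → Finset V) (w p k : ℕ)
    (hw : ∀ t, (B t).card ≤ w + 1) (hcov : ∀ v, ∃ t, v ∈ B t)
    (hedge : ∀ u v, G.Adj u v → ∃ t, u ∈ B t ∧ v ∈ B t)
    (hconn : ∀ v, (T.induce {t | v ∈ B t}).Preconnected)
    (hk : G.chromaticNumber = (k : ℕ∞)) (h : 2 ^ 43 * (p + Nat.log 2 (w + 1) + 1) ≤ k) :
    Scheme G p := by
  by_contra hS
  obtain ⟨o, hE⟩ := exists_elim T hT B w hw hcov hconn
  have hGH : G ≤ share B := fun u v huv => ⟨huv.ne, hedge u v huv⟩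
  have h1 := (main_elim hGH hE hS).chromaticNumber_le
  rw [hk] at h1
  have h3 : k ≤ 2 * (2 ^ 22 * (9600 * (p + 4 * (5 + 5 * Nat.clog 2 (w + 1)) + 40) + p)) := by
    exact_mod_cast h1
  have h4 : Nat.clog 2 (w + 1) ≤ Nat.log 2 (w + 1) + 1 := by
    apply Nat.clog_le_of_le_pow
    exact (Nat.lt_pow_succ_log_self (by norm_num) _).le
  omega

end Pool.MP_a862e4_co.TW
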