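import Pool.Agent.W_a862e4_tw.Lca

/-!
Last common ancestors inside a set.
-/

set_option autoImplicit false
set_option linter.unusedSectionVars false

namespace Pool.MP_a862e4_co.TW

open Pool.MP_4929df_co.H91 Pool.MP_a862e4_co.H18
open scoped Classical

variable {V : Type*} [Fintype V]

/-- The gate: `t ∈ Z`, `a ∈ De t`, `a ∉ Z`.  There is a connected set `C ⊆ De t` without `t` which contains `a` and
a neighbour `b` of `Z`.
PROOF.  `C` = the component of `a` in `H[De t \ {t}]` (`exists_comp`).  `De t` is connected and `t ∉ C`, so some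
`c ∈ C` has a neighbour in `De t \ C`, which must be `t`.  If `c ∉ Z`, then `b = c` (adjacent to `t ∈ Z`).  If `c ∈ Z`:
`C` is connected, `c ∈ C ∩ Z`, `a ∈ C \ Z`, so some `x ∈ C ∩ Z` is adjacent to some `b ∈ C \ Z` (`Cn.exists_adj`). -/
theorem gate {H : SimpleGraph V} {o : V → ℕ} {Z : Set V} {t a : V} (ht : t ∈ Z)
    (ha : a ∈ De H o t) (haZ : a ∉ Z) :
    ∃ C : Set V, Cn H C ∧ C ⊆ De H o t ∧ t ∉ C ∧ a ∈ C ∧ ∃ b ∈ C, b ∈ NZ H Z := by
  have hat : a ≠ t := by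
    rintro rfl
    exact haZ ht
  have haU : a ∈ De H o t \ {t} := ⟨ha, hat⟩
  obtain ⟨K, hK, haK⟩ := exists_comp H haU
  have hKD : K ⊆ De H o t := fun x hx => (hK.1 hx).1
  have htK : t ∉ K := fun h => (hK.1 h).2 rfl
  obtain ⟨c, hcK, s, hs, hsK, hcs⟩ := (De_cn H o t).exists_adj hKD ⟨a, haK⟩
    (fun h => htK (by rw [h]; exact De_self H o t))
  have hst : s = t := by
    by_contra hne
    exact hsK (hK.2.2 c hcK s ⟨hs, hne⟩ hcs)
  subst hst
  refine ⟨K, hK.2.1, hKD, htK, haK, ?_⟩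
  by_cases hcZ : c ∈ Z
  · obtain ⟨x, hx, y, hyK, hy, hxy⟩ := hK.2.1.exists_adj (A := K ∩ Z) Set.inter_subset_left
      ⟨c, hcK, hcZ⟩ (fun h => by
        have h1 : a ∈ K ∩ Z := by rw [h]; exact haK
        exact haZ h1.2)
    exact ⟨y, hyK, mem_NZ.2 ⟨fun h => hy ⟨hyK, h⟩, x, hx.2, hxy⟩⟩
  · exact ⟨c, hcK, mem_NZ.2 ⟨hcZ, s, ht, hcs.symm⟩⟩

private theorem Gate_aux {H : SimpleGraph V} {o : V → ℕ} {Z : Set V} {A : Finset V} {t a : V}
    (ht : t ∈ Z) (haA : a ∈ A) (ha : a ∈ De H o t) :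
    ∃ (C : Set V) (b : V), Cn H C ∧ C ⊆ De H o t ∧ a ∈ C ∧ b ∈ C ∧
      b ∈ prt A Z ∪ NZ H Z ∧ (b ≠ t → t ∉ C) := by
  by_cases haZ : a ∈ Z
  · refine ⟨{a}, a, cn_singleton H a, ?_, rfl, rfl, ?_, ?_⟩
    · rintro x rfl
      exact ha
    · exact Finset.mem_union_left _ (mem_prt.2 ⟨haA, haZ⟩)
    · intro h1 h2
      exact h1 (Set.mem_singleton_iff.1 h2).symm
  · obtain ⟨C, hC, hCD, htC, haC, b, hbC, hb⟩ := gate ht ha haZ
    exact ⟨C, b, hC, hCD, haC, hbC, Finset.mem_union_right _ hb, fun _ => htC⟩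

/-- For `t ∈ Z`, `t = lca (a, a')` there are `b, b' ∈ (A ∩ Z) ∪ NZ Z` with `t = lca (b, b')`.
PROOF.  If `a ∈ Z` let `b = a` and `C = {a}`, otherwise `b`, `C` from `gate`; the same for `a'`: `b'`, `C'`.
`b, b' ∈ De t`.  Suppose `b, b' ∈ De u` and `o t < o u`.  Then `u ∈ De t`, `De u ⊆ De t` (`De_nested`, `De_sub`), `t ∉ De u`
(`De_ge`), and `b ≠ t` (`De_ge`), so `t ∉ C`; the same for `C'`.  `C ∪ De u ∪ C'` is connected (`Cn.union`), contained in
`De t`, does not contain `t`; let `w` be its element with the smallest `o`: `o t < o w` (`o` injective), and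
`a, a' ∈ De w`, contradiction to `IsLca a a' t`. -/
theorem lca_gate {H : SimpleGraph V} {o : V → ℕ} (ho : Function.Injective o) {Z : Set V}
    {A : Finset V} {t a a' : V} (ht : t ∈ Z) (ha : a ∈ A) (ha' : a' ∈ A) (h : IsLca H o a a' t) :
    ∃ b ∈ prt A Z ∪ NZ H Z, ∃ b' ∈ prt A Z ∪ NZ H Z, IsLca H o b b' t := by
  obtain ⟨C, b, hC, hCD, haC, hbC, hb, htC⟩ := Gate_aux ht ha h.1
  obtain ⟨C', b', hC', hCD', haC', hbC', hb', htC'⟩ := Gate_aux ht ha' h.2.1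
  refine ⟨b, hb, b', hb', hCD hbC, hCD' hbC', fun u hbu hbu' => ?_⟩
  by_contra hlt
  push Not at hlt
  have hut : u ∈ De H o t := De_nested (hCD hbC) hbu hlt.le
  have hsub : De H o u ⊆ De H o t := De_sub hut
  have htu : t ∉ De H o u := fun h1 => absurd (De_ge h1) (not_le.2 hlt)
  have hbt : b ≠ t := by
    rintro rfl
    exact htu hbu
  have hbt' : b' ≠ t := by
    rintro rfl
    exact htu hbu'
  have hD : Cn H (C ∪ De H o u ∪ C') :=
    (hC.union (De_cn H o u) ⟨b, hbC, hbu⟩).union hC' ⟨b', Or.inr hbu', hbC'⟩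
  have hDt : C ∪ De H o u ∪ C' ⊆ De H o t :=
    Set.union_subset (Set.union_subset hCD hsub) hCD'
  have htD : t ∉ C ∪ De H o u ∪ C' := by
    rintro ((h1 | h1) | h1)
    · exact htC hbt h1
    · exact htu h1
    · exact htC' hbt' h1
  obtain ⟨w, hwD, hmin⟩ := Set.exists_min_image (C ∪ De H o u ∪ C') o (Set.toFinite _) hD.1
  have h1 : o t ≤ o w := De_ge (hDt hwD)
  have h2 : o t ≠ o w := fun h3 => htD (by rw [ho h3]; exact hwD)
  have haw : a ∈ De H o w := ⟨_, hD, hwD, Or.inl (Or.inl haC), hmin⟩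
  have haw' : a' ∈ De H o w := ⟨_, hD, hwD, Or.inr haC', hmin⟩
  have h3 := h.2.2 w haw haw'
  omega

/-- `lca_gate`, `card_lcl` -/
theorem card_lcl_prt {H : SimpleGraph V} {o : V → ℕ} (ho : Function.Injective o) (A : Finset V)
    (Z : Set V) : (prt (lcl H o A) Z).card ≤ ((prt A Z).card + (NZ H Z).card) ^ 2 := by
  have hsub : prt (lcl H o A) Z ⊆ lcl H o (prt A Z ∪ NZ H Z) := by
    intro t ht
    obtain ⟨ht1, ht2⟩ := mem_prt.1 ht
    obtain ⟨a, ha, a', ha', h⟩ := mem_lcl.1 ht1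
    exact mem_lcl.2 (lca_gate ho ht2 ha ha' h)
  refine (Finset.card_le_card hsub).trans ((card_lcl ho _).trans ?_)
  exact Nat.pow_le_pow_left (Finset.card_union_le _ _) 2

end Pool.MP_a862e4_co.TW
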