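import Pool.Agent.W_a862e4_tw.ChC

/-!
Colouring of block constructions.
-/

set_option autoImplicit false
set_option linter.unusedSectionVars false

namespace Pool.MP_a862e4_co.TW

open Pool.MP_4929df_co.H91 Pool.MP_a862e4_co.H18
open scoped Classical

variable {V : Type*} [Fintype V]

/-- induction on `BD`, `extend` -/
theorem BD.label {G : SimpleGraph V} {p q ℓ : ℕ} (h : ¬ Scheme G p) {U : Finset V}
    (hU : BD G q (2 ^ ℓ) U) :
    ∃ c : V → Fin (2 ^ 22), ∀ i,
      Colb G (U.filter (fun v => c v = i)) (9600 * (p + 4 * ℓ + 40) + q) := by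
  induction hU with
  | nil =>
    refine ⟨fun _ => 0, fun i => ⟨fun _ => ⟨0, by omega⟩, ?_⟩⟩
    intro x hx
    simp at hx
  | add U P _ hd hP hq ih =>
    obtain ⟨c0, h0⟩ := ih
    exact extend h hd.symm hP hq c0 h0

/-- product colouring, as in `colorable_of_classes` (`FinB.lean`) -/
theorem colb_of_label {G : SimpleGraph V} {r k : ℕ} {U : Finset V} (c : V → Fin r)
    (h : ∀ i, Colb G (U.filter (fun v => c v = i)) k) : Colb G U (r * k) := by
  choose d hd using h
  refine ⟨fun v => finProdFinEquiv (c v, d (c v) v), ?_⟩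
  intro a ha b hb hab heq
  have heq' := finProdFinEquiv.injective heq
  rw [Prod.mk.injEq] at heq'
  have h1 : c a = c b := heq'.1
  have h2 := hd (c a) a (by simp [ha]) b (by simp [hb, h1]) hab
  apply h2
  rw [heq'.2, h1]

theorem colorable_of_two {G : SimpleGraph V} {k : ℕ} {U W : Finset V} (hU : Colb G U k)
    (hW : Colb G W k) (h : U ∪ W = Finset.univ) : G.Colorable (2 * k) := by
  obtain ⟨cU, hcU⟩ := hU
  obtain ⟨cW, hcW⟩ := hW
  have hmem : ∀ v : V, v ∉ U → v ∈ W := by
    intro v hv
    have : v ∈ U ∪ W := by rw [h]; exact Finset.mem_univ v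
    rcases Finset.mem_union.1 this with h1 | h1
    · exact absurd h1 hv
    · exact h1
  let f : V → Fin 2 × Fin k := fun v => if v ∈ U then (0, cU v) else (1, cW v)
  have hC : G.Coloring (Fin 2 × Fin k) := SimpleGraph.Coloring.mk f (by
    intro a b hab heq
    by_cases ha : a ∈ U
    · by_cases hb : b ∈ U
      · have e1 : f a = (0, cU a) := if_pos ha
        have e2 : f b = (0, cU b) := if_pos hb
        rw [e1, e2, Prod.mk.injEq] at heq
        exact hcU a ha b hb hab heq.2
      · have e1 : f a = (0, cU a) := if_pos ha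
        have e2 : f b = (1, cW b) := if_neg hb
        rw [e1, e2, Prod.mk.injEq] at heq
        exact absurd heq.1 (by decide)
    · by_cases hb : b ∈ U
      · have e1 : f a = (1, cW a) := if_neg ha
        have e2 : f b = (0, cU b) := if_pos hb
        rw [e1, e2, Prod.mk.injEq] at heq
        exact absurd heq.1 (by decide)
      · have e1 : f a = (1, cW a) := if_neg ha
        have e2 : f b = (1, cW b) := if_neg hb
        rw [e1, e2, Prod.mk.injEq] at heq
        exact hcW a (hmem a ha) b (hmem b hb) hab heq.2)
  have := hC.colorable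
  simpa using this

end Pool.MP_a862e4_co.TW
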