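import Pool.Agent.W_a862e4_tw.LayA

/-!
Layers.
-/

set_option autoImplicit false
set_option linter.unusedSectionVars false

namespace Pool.MP_a862e4_co.TW

open Pool.MP_4929df_co.H91 Pool.MP_a862e4_co.H18
open scoped Classical

variable {V : Type*} [Fintype V]

/-- Adding a layer `L` piece by piece: the pieces are the sets `prt L Z`, `Z` a component of `H[Sᶜ]`, `L` disjoint from `S` and `B`.
PROOF.  Show `BD G q n (B ∪ L')` for all `L' ⊆ L` which are unions of pieces (`∀ v ∈ L', ∀ Z, Comp H Sᶜ Z → v ∈ Z → prt L Z ⊆ L'`), by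
induction on `L'.card`: take `v ∈ L'`, its component `Z` (`exists_comp`), `P = prt L Z`, `L'' = L' \ P` (again a union of pieces,
`Comp.eq_of_inter`); a vertex `w ∈ P` has no neighbour in `L''` (a neighbour outside `S` of `w ∈ Z` is in `Z`), so at most `q` neighbours
in `B ∪ L''`. -/
theorem BD.add_layer {G H : SimpleGraph V} (hGH : G ≤ H) {q n : ℕ} {B S L : Finset V}
    (hB : BD G q n B) (hBL : Disjoint B L) (hSL : Disjoint S L)
    (hL : ∀ v ∈ L, (nb G B v).card ≤ q)
    (hZ : ∀ Z, Comp H ((S : Finset V) : Set V)ᶜ Z → (prt L Z).card ≤ n) :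
    BD G q n (B ∪ L) := by
  have key : ∀ m : ℕ, ∀ L' : Finset V, L'.card = m → L' ⊆ L →
      (∀ v ∈ L', ∀ Z, Comp H ((S : Finset V) : Set V)ᶜ Z → v ∈ Z → prt L Z ⊆ L') →
      BD G q n (B ∪ L') := by
    intro m
    induction m using Nat.strong_induction_on with
    | _ m ih =>
      intro L' hcard hL' hcl
      rcases Finset.eq_empty_or_nonempty L' with he | ⟨v, hv⟩
      · subst he
        rw [Finset.union_empty]
        exact hB
      · have hvS : v ∈ ((S : Finset V) : Set V)ᶜ := by
          intro h
          exact (Finset.disjoint_left.1 hSL) h (hL' hv)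
        obtain ⟨Z, hZc, hvZ⟩ := exists_comp H hvS
        have hP : prt L Z ⊆ L' := hcl v hv Z hZc hvZ
        have hvP : v ∈ prt L Z := mem_prt.2 ⟨hL' hv, hvZ⟩
        have hlt : (L' \ prt L Z).card < m := by
          rw [← hcard]
          refine Finset.card_lt_card ⟨Finset.sdiff_subset, fun h => ?_⟩
          exact (Finset.mem_sdiff.1 (h hv)).2 hvP
        have hBD := ih (L' \ prt L Z).card hlt (L' \ prt L Z) rfl
          (Finset.sdiff_subset.trans hL') (by
            intro u hu Z' hZ' huZ' x hx
            have hx1 := hcl u (Finset.mem_sdiff.1 hu).1 Z' hZ' huZ' hx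
            refine Finset.mem_sdiff.2 ⟨hx1, fun hxP => ?_⟩
            have hZZ : Z = Z' := hZc.eq_of_inter hZ' ⟨x, (mem_prt.1 hxP).2, (mem_prt.1 hx).2⟩
            apply (Finset.mem_sdiff.1 hu).2
            rw [hZZ]
            exact mem_prt.2 ⟨hL' (Finset.mem_sdiff.1 hu).1, huZ'⟩)
        have e : B ∪ L' = (B ∪ (L' \ prt L Z)) ∪ prt L Z := by
          rw [Finset.union_assoc, Finset.sdiff_union_of_subset hP]
        rw [e]
        refine BD.add _ _ hBD ?_ (hZ Z hZc) ?_
        · rw [Finset.disjoint_left]
          intro x hx hxP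
          rcases Finset.mem_union.1 hx with h | h
          · exact (Finset.disjoint_left.1 hBL) h (mem_prt.1 hxP).1
          · exact (Finset.mem_sdiff.1 h).2 hxP
        · intro w hw
          refine (Finset.card_le_card ?_).trans (hL w (mem_prt.1 hw).1)
          intro x hx
          rw [mem_nbf] at hx ⊢
          rcases Finset.mem_union.1 hx.1 with h | h
          · exact ⟨h, hx.2⟩
          · exfalso
            have hxL := hL' (Finset.mem_sdiff.1 h).1
            have hxS : x ∈ ((S : Finset V) : Set V)ᶜ := by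
              intro h2
              exact (Finset.disjoint_left.1 hSL) h2 hxL
            have hxZ : x ∈ Z := hZc.2.2 w (mem_prt.1 hw).2 x hxS (hGH hx.2)
            exact (Finset.mem_sdiff.1 h).2 (mem_prt.2 ⟨hxL, hxZ⟩)
  exact key L.card L rfl (Finset.Subset.refl _) (fun v _ Z _ _ x hx => (mem_prt.1 hx).1)

/-- the two parity classes of layers -/
private noncomputable def LayB_Par (X : ℕ → Finset V) : ℕ → Finset V
  | 0 => ∅
  | 1 => X 1
  | j + 2 => LayB_Par X j ∪ (X (j + 2) \ X (j + 1))

private theorem LayB_sub (X : ℕ → Finset V) (hmono : ∀ j, X j ⊆ X (j + 1)) (j : ℕ) :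
    LayB_Par X j ⊆ X j := by
  induction j using Nat.strong_induction_on with
  | _ j ih =>
    match j with
    | 0 => exact Finset.empty_subset _
    | 1 => exact Finset.Subset.refl _
    | j + 2 =>
      have h1 := ih j (by omega)
      exact Finset.union_subset ((h1.trans (hmono j)).trans (hmono (j + 1))) Finset.sdiff_subset

private theorem LayB_union (X : ℕ → Finset V) (hmono : ∀ j, X j ⊆ X (j + 1)) (j : ℕ) :
    X (j + 1) = LayB_Par X (j + 1) ∪ LayB_Par X j := by
  induction j with
  | zero =>
    change X 1 = X 1 ∪ ∅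
    rw [Finset.union_empty]
  | succ j ih =>
    change X (j + 2) = (LayB_Par X j ∪ (X (j + 2) \ X (j + 1))) ∪ LayB_Par X (j + 1)
    have e : (LayB_Par X j ∪ (X (j + 2) \ X (j + 1))) ∪ LayB_Par X (j + 1) =
        (X (j + 2) \ X (j + 1)) ∪ (LayB_Par X (j + 1) ∪ LayB_Par X j) := by
      ext x
      simp only [Finset.mem_union]
      tauto
    rw [e, ← ih, Finset.sdiff_union_of_subset (hmono (j + 1))]

/-- Layers.  `Par 0 = ∅`, `Par 1 = X 1`, `Par (j + 2) = Par j ∪ (X (j + 2) \ X (j + 1))`; `Par j ⊆ X j`; `X (j + 1) = Par (j + 1) ∪ Par j`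
(induction); `BD G p n (Par j)`: `BD.add_layer` with `B = Par j`, `S = X (j + 1)`, `L = X (j + 2) \ X (j + 1)` (`nb G (Par j) v ⊆ nb G (X j) v`), and
`B = ∅`, `S = X 0 = ∅`, `L = X 1`.  With `X m = univ` (`m = 0`: `V` is empty) `BD.label`, `colb_of_label` and `colorable_of_two` give
the colouring. -/
theorem layers {G H : SimpleGraph V} (hGH : G ≤ H) {p ℓ m : ℕ} (h : ¬ Scheme G p)
    (X : ℕ → Finset V) (h0 : X 0 = ∅) (hmono : ∀ j, X j ⊆ X (j + 1)) (hm : X m = Finset.univ)
    (ha : ∀ j, ∀ v, v ∉ X (j + 1) → (nb G (X j) v).card < p)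
    (hb : ∀ j Z, Comp H ((X j : Finset V) : Set V)ᶜ Z → (prt (X (j + 1)) Z).card ≤ 2 ^ ℓ) :
    G.Colorable (2 * (2 ^ 22 * (9600 * (p + 4 * ℓ + 40) + p))) := by
  have hP := LayB_sub X hmono
  have hU := LayB_union X hmono
  have hBD : ∀ j, BD G p (2 ^ ℓ) (LayB_Par X j) := by
    intro j
    induction j using Nat.strong_induction_on with
    | _ j ih =>
      match j with
      | 0 => exact BD.nil
      | 1 =>
        have h1 := BD.add_layer hGH (q := p) (n := 2 ^ ℓ) (B := ∅) (S := X 0) (L := X 1) BD.nil
          (Finset.disjoint_empty_left _) (by rw [h0]; exact Finset.disjoint_empty_left _)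
          (fun v _ => by
            have : nb G ∅ v = ∅ := by
              ext x
              rw [mem_nbf]
              simp
            rw [this, Finset.card_empty]
            exact Nat.zero_le _) (hb 0)
        rw [Finset.empty_union] at h1
        exact h1
      | j + 2 =>
        have h1 := ih j (by omega)
        exact BD.add_layer hGH (S := X (j + 1)) h1
          (by
            rw [Finset.disjoint_left]
            intro x hx hx2
            exact (Finset.mem_sdiff.1 hx2).2 (hmono j (hP j hx)))
          (by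
            rw [Finset.disjoint_left]
            intro x hx hx2
            exact (Finset.mem_sdiff.1 hx2).2 hx)
          (fun v hv => by
            have h2 := ha j v (Finset.mem_sdiff.1 hv).2
            refine le_trans (Finset.card_le_card ?_) h2.le
            intro x hx
            rw [mem_nbf] at hx ⊢
            exact ⟨hP j hx.1, hx.2⟩)
          (fun Z hZ => by
            refine le_trans (Finset.card_le_card ?_) (hb (j + 1) Z hZ)
            intro x hx
            rw [mem_prt] at hx ⊢
            exact ⟨(Finset.mem_sdiff.1 hx.1).1, hx.2⟩)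
  have hfin : LayB_Par X (m + 1) ∪ LayB_Par X m = Finset.univ := by
    rw [← hU m]
    apply Finset.eq_univ_of_forall
    intro x
    apply hmono m
    rw [hm]
    exact Finset.mem_univ x
  obtain ⟨c1, hc1⟩ := BD.label h (hBD (m + 1))
  obtain ⟨c2, hc2⟩ := BD.label h (hBD m)
  exact colorable_of_two (colb_of_label c1 hc1) (colb_of_label c2 hc2) hfin

end Pool.MP_a862e4_co.TW
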