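import Pool.Agent.W_a862e4_tw.De

/-!
Closure under last common ancestors.
-/

set_option autoImplicit false
set_option linter.unusedSectionVars false

namespace Pool.MP_a862e4_co.TW

open Pool.MP_4929df_co.H91 Pool.MP_a862e4_co.H18
open scoped Classical

variable {V : Type*} [Fintype V]

/-- a common ancestor gives a last common ancestor, which is a descendant of it (maximum of `o` over the
common ancestors; `De_nested`) -/
theorem exists_lca {H : SimpleGraph V} {o : V → ℕ} {a b u : V} (ha : a ∈ De H o u)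
    (hb : b ∈ De H o u) : ∃ v, IsLca H o a b v ∧ v ∈ De H o u := by
  obtain ⟨v, hv, hmax⟩ := Finset.exists_max_image
    (Finset.univ.filter (fun v => a ∈ De H o v ∧ b ∈ De H o v)) o
    ⟨u, Finset.mem_filter.2 ⟨Finset.mem_univ _, ha, hb⟩⟩
  have hv' := (Finset.mem_filter.1 hv).2
  refine ⟨v, ⟨hv'.1, hv'.2, fun w hw1 hw2 =>
    hmax w (Finset.mem_filter.2 ⟨Finset.mem_univ _, hw1, hw2⟩)⟩, ?_⟩
  exact De_nested ha hv'.1 (hmax u (Finset.mem_filter.2 ⟨Finset.mem_univ _, ha, hb⟩))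

theorem IsLca.unique {H : SimpleGraph V} {o : V → ℕ} (ho : Function.Injective o) {a b v w : V}
    (h1 : IsLca H o a b v) (h2 : IsLca H o a b w) : v = w :=
  ho (le_antisymm (h2.2.2 v h1.1 h1.2.1) (h1.2.2 w h2.1 h2.2.1))

/-- `IsLca a a a` -/
theorem subset_lcl (H : SimpleGraph V) (o : V → ℕ) (A : Finset V) : A ⊆ lcl H o A := by
  intro a ha
  exact mem_lcl.2 ⟨a, ha, a, ha, De_self H o a, De_self H o a, fun u hu _ => De_ge hu⟩

/-- `lcl A` is contained in the image of `A ×ˢ A` under a choice of the last common ancestor -/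
theorem card_lcl {H : SimpleGraph V} {o : V → ℕ} (ho : Function.Injective o) (A : Finset V) :
    (lcl H o A).card ≤ A.card ^ 2 := by
  have hsub : lcl H o A ⊆ (A ×ˢ A).image
      (fun q : V × V => if h : ∃ v, IsLca H o q.1 q.2 v then h.choose else q.1) := by
    intro v hv
    obtain ⟨a, ha, b, hb, hab⟩ := mem_lcl.1 hv
    refine Finset.mem_image.2 ⟨(a, b), Finset.mem_product.2 ⟨ha, hb⟩, ?_⟩
    have hex : ∃ v, IsLca H o (a, b).1 (a, b).2 v := ⟨v, hab⟩
    rw [dif_pos hex]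
    exact IsLca.unique ho hex.choose_spec hab
  calc (lcl H o A).card ≤ _ := Finset.card_le_card hsub
    _ ≤ (A ×ˢ A).card := Finset.card_image_le
    _ = A.card ^ 2 := by rw [Finset.card_product, sq]

/-- Let `lcl A` meet `De z` and let `m` be its element in `De z` with the smallest `o`.
(1) `A` meets `De m`: `m = lca (a, a')`, `a ∈ De m ⊆ De z`; let `a₀ ∈ A ∩ De m`.
(2) `A ∩ De z ⊆ De m`: for `a ∈ A ∩ De z` the last common ancestor `l` of `a₀` and `a` exists and `l ∈ De z`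
(`exists_lca`), so `o m ≤ o l`; `a₀ ∈ De m ∩ De l`, so `l ∈ De m` (`De_nested`), `a ∈ De l ⊆ De m`.
(3) for `m' ∈ lcl A ∩ De z`, `m' = lca (a, a')`, `a ∈ De m' ⊆ De z`, so `a ∈ De m` by (2), `o m ≤ o m'`, so
`m' ∈ De m` (`De_nested`). -/
theorem clo_lcl {H : SimpleGraph V} {o : V → ℕ} (A : Finset V) : Clo H o (lcl H o A) := by
  rintro z ⟨m₀, hm₀, hm₀z⟩
  obtain ⟨m, hm, hmin⟩ := Finset.exists_min_image
    ((lcl H o A).filter (fun m => m ∈ De H o z)) o
    ⟨m₀, Finset.mem_filter.2 ⟨hm₀, hm₀z⟩⟩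
  have hmA := (Finset.mem_filter.1 hm).1
  have hmz := (Finset.mem_filter.1 hm).2
  obtain ⟨a, ha, a', _, hl⟩ := mem_lcl.1 hmA
  have haz : a ∈ De H o z := De_sub hmz hl.1
  have h2 : ∀ b ∈ A, b ∈ De H o z → b ∈ De H o m := by
    intro b hb hbz
    obtain ⟨l, hl1, hl2⟩ := exists_lca haz hbz
    have hlA : l ∈ lcl H o A := mem_lcl.2 ⟨a, ha, b, hb, hl1⟩
    have hml := hmin l (Finset.mem_filter.2 ⟨hlA, hl2⟩)
    exact De_sub (De_nested hl.1 hl1.1 hml) hl1.2.1
  refine ⟨m, hmA, hmz, fun m' hm' hm'z => ?_⟩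
  obtain ⟨b, hb, b', _, hl'⟩ := mem_lcl.1 hm'
  exact De_nested (h2 b hb (De_sub hm'z hl'.1)) hl'.1
    (hmin m' (Finset.mem_filter.2 ⟨hm', hm'z⟩))

theorem clo_empty (H : SimpleGraph V) (o : V → ℕ) : Clo H o ∅ := by
  rintro z ⟨m, hm, _⟩
  exact absurd hm (Finset.notMem_empty m)

end Pool.MP_a862e4_co.TW
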