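import Pool.Agent.W_a862e4_tw.Seq
import Pool.Agent.W_a862e4_tw.LayB

/-!
The final theorem.
-/

set_option autoImplicit false
set_option linter.unusedSectionVars false

namespace Pool.MP_a862e4_co.TW

open Pool.MP_4929df_co.H91 Pool.MP_a862e4_co.H18
open scoped Classical

variable {V : Type*} [Fintype V]

/-- `exists_seq`, `layers` with `ℓ = 5 + 5 * Nat.clog 2 (k + 1)`: `32 (k + 1) ^ 5 ≤ 2 ^ ℓ`. -/
theorem main_elim {G H : SimpleGraph V} {o : V → ℕ} {k p : ℕ} (hGH : G ≤ H) (hE : Elim H o k)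
    (h : ¬ Scheme G p) :
    G.Colorable (2 * (2 ^ 22 * (9600 * (p + 4 * (5 + 5 * Nat.clog 2 (k + 1)) + 40) + p))) := by
  obtain ⟨X, h0, hmono, hm, ha, hb⟩ := exists_seq hGH hE h
  refine layers hGH h X h0 hmono hm ha fun j Z hZ => (hb j Z hZ).trans ?_
  have h1 : k + 1 ≤ 2 ^ Nat.clog 2 (k + 1) := Nat.le_pow_clog (by norm_num) _
  have h2 : (k + 1) ^ 5 ≤ (2 ^ Nat.clog 2 (k + 1)) ^ 5 := Nat.pow_le_pow_left h1 5
  have h3 : 2 ^ (5 + 5 * Nat.clog 2 (k + 1)) = 32 * (2 ^ Nat.clog 2 (k + 1)) ^ 5 := by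
    rw [pow_add, mul_comm 5 (Nat.clog 2 (k + 1)), pow_mul]
    norm_num
  rw [h3]
  exact Nat.mul_le_mul_left 32 h2

end Pool.MP_a862e4_co.TW
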