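import Pool.Agent.W_a862e4_tw.De

/-!
The neighbourhood of a component.
-/

set_option autoImplicit false
set_option linter.unusedSectionVars false

namespace Pool.MP_a862e4_co.TW

open Pool.MP_4929df_co.H91 Pool.MP_a862e4_co.H18
open scoped Classical

variable {V : Type*} [Fintype V]

private theorem Nbh_bk_UU {H : SimpleGraph V} {o : V → ℕ} {M : Finset V} {m b : V} (hm : m ∈ M)
    (hb : b ∈ bk H o m) : b ∈ UU H o M :=
  mem_UU.2 ⟨m, hm, Or.inr (mem_bk.1 hb)⟩

/-- If `M` is closed every component `Z` of `H - UU M` has at most `2 k` neighbours. -/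
theorem card_NZ {H : SimpleGraph V} {o : V → ℕ} {k : ℕ} (hE : Elim H o k) {M : Finset V}
    (hM : Clo H o M) {Z : Set V} (hZ : Comp H ((UU H o M : Finset V) : Set V)ᶜ Z) :
    (NZ H Z).card ≤ 2 * k := by
  obtain ⟨z0, hz0⟩ := hZ.2.1.1
  obtain ⟨z, hz, hmin⟩ := Finset.exists_min_image (Finset.univ.filter (fun x => x ∈ Z)) o
    ⟨z0, by simp [hz0]⟩
  have hzZ : z ∈ Z := by simpa using hz
  have hmin' : ∀ x ∈ Z, o z ≤ o x := fun x hx => hmin x (by simp [hx])
  have hZD : Z ⊆ De H o z := De_of_cn hZ.2.1 hmin' ⟨z, hzZ, De_self H o z⟩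
  have hzU : ∀ x ∈ Z, x ∉ UU H o M := fun x hx hxU => hZ.1 hx (by exact_mod_cast hxU)
  -- the neighbours of `Z` are in `UU M`
  have hyU : ∀ y ∈ NZ H Z, y ∈ UU H o M := by
    intro y hy
    obtain ⟨hyZ, x, hx, hxy⟩ := mem_NZ.1 hy
    by_contra hcon
    exact hyZ (hZ.2.2 x hx y (by simpa using hcon) hxy)
  -- neighbours in `De z` come from `t ∈ M ∩ De z`
  have ht : ∀ y ∈ NZ H Z, y ∈ De H o z → ∃ t ∈ M, t ∈ De H o z ∧ (y = t ∨ (H.Adj t y ∧ o y < o t)) := by
    intro y hy hyD
    obtain ⟨t, htM, h⟩ := mem_UU.1 (hyU y hy)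
    refine ⟨t, htM, ?_, h⟩
    rcases h with h | h
    · rw [← h]; exact hyD
    · exact De_adj hyD h.1.symm ((De_ge hyD).trans h.2.le)
  by_cases hex : ∃ m ∈ M, m ∈ De H o z
  · obtain ⟨m, hmM, hmz, htop⟩ := hM z hex
    have hzm : z ∉ De H o m := by
      intro hcon
      have h1 := De_ge hcon
      have h2 := De_ge hmz
      have h3 : z = m := hE.inj (le_antisymm h2 h1)
      exact hzU z hzZ (subset_UU H o M (h3 ▸ hmM))
    have hdis : ∀ x ∈ Z, x ∉ De H o m := by
      intro x hx hxm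
      have hne : (Z ∩ De H o m).Nonempty := ⟨x, hx, hxm⟩
      obtain ⟨a, ha, b, hb, hbA, hab⟩ := hZ.2.1.exists_adj (A := Z ∩ De H o m)
        Set.inter_subset_left hne (fun h => hzm (by
          have : z ∈ Z ∩ De H o m := by rw [h]; exact hzZ
          exact this.2))
      have hbm : b ∉ De H o m := fun h => hbA ⟨hb, h⟩
      exact hzU b hb (Nbh_bk_UU hmM (De_bd hE ha.2 hab hbm))
    have hsub : NZ H Z ⊆ bk H o z ∪ bk H o m := by
      intro y hy
      obtain ⟨hyZ, x, hx, hxy⟩ := mem_NZ.1 hy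
      rw [Finset.mem_union]
      by_cases hyD : y ∈ De H o z
      · right
        obtain ⟨t, htM, htz, h⟩ := ht y hy hyD
        have htm : t ∈ De H o m := htop t htM htz
        have hym : y ∉ De H o m := by
          intro hcon
          exact hzU x hx (Nbh_bk_UU hmM (De_bd hE hcon hxy.symm (hdis x hx)))
        rcases h with h | h
        · exact absurd (h ▸ htm) hym
        · exact De_bd hE htm h.1 hym
      · left
        exact De_bd hE (hZD hx) hxy hyD
    calc (NZ H Z).card ≤ (bk H o z ∪ bk H o m).card := Finset.card_le_card hsub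
      _ ≤ (bk H o z).card + (bk H o m).card := Finset.card_union_le _ _
      _ ≤ k + k := Nat.add_le_add (hE.card z) (hE.card m)
      _ = 2 * k := by ring
  · have hsub : NZ H Z ⊆ bk H o z := by
      intro y hy
      obtain ⟨hyZ, x, hx, hxy⟩ := mem_NZ.1 hy
      by_cases hyD : y ∈ De H o z
      · obtain ⟨t, htM, htz, _⟩ := ht y hy hyD
        exact absurd ⟨t, htM, htz⟩ hex
      · exact De_bd hE (hZD hx) hxy hyD
    calc (NZ H Z).card ≤ (bk H o z).card := Finset.card_le_card hsub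
      _ ≤ k := hE.card z
      _ ≤ 2 * k := by omega

end Pool.MP_a862e4_co.TW
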