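import Pool.Agent.W_a862e4_tw.Final

/-!
Graphs whose vertex set is a union of few sets which induce graphs of bounded treewidth.
-/

set_option autoImplicit false
set_option linter.unusedSectionVars false

namespace Pool.MP_a862e4_co.TW

open Pool.MP_4929df_co.H91 Pool.MP_a862e4_co.H18
open scoped Classical

/-- a scheme of an induced subgraph is a scheme -/
theorem Scheme.of_comap {V W : Type*} {G : SimpleGraph V} (f : W → V) (hf : Function.Injective f)
    {p : ℕ} (h : Scheme (G.comap f) p) : Scheme G p := by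
  obtain ⟨v, hv, C, h1, h2, h3⟩ := h
  refine ⟨fun i => f (v i), hf.comp hv, fun i j => f '' C i j, ?_, ?_, ?_⟩
  · intro i j
    change f '' C i j = f '' C j i
    rw [h1 i j]
  · intro i j hij
    obtain ⟨h4, h5, h6⟩ := h2 i j hij
    refine ⟨⟨v i, h4, rfl⟩, ⟨v j, h5, rfl⟩, ?_⟩
    let φ : (G.comap f).induce (C i j) →g G.induce (f '' C i j) :=
      { toFun := fun x => ⟨f x.1, ⟨x.1, x.2, rfl⟩⟩
        map_rel' := fun {a b} hab => hab }
    refine h6.map φ ?_
    rintro ⟨_, x, hx, rfl⟩
    exact ⟨⟨x, hx⟩, rfl⟩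
  · intro i j k l a1 a2 a3 a4 a5 a6
    exact Set.disjoint_image_of_injective hf (h3 i j k l a1 a2 a3 a4 a5 a6)

/-- colourings of the parts give a colouring of the graph -/
theorem colorable_of_parts {V : Type*} (G : SimpleGraph V) {r m : ℕ} (c : V → Fin r)
    (h : ∀ i, (G.comap (fun v : {v // c v = i} => (v : V))).Colorable m) :
    G.Colorable (r * m) := by
  let col : ∀ i, (G.comap (fun v : {v // c v = i} => (v : V))).Coloring (Fin m) :=
    fun i => (h i).some
  let F : V → Fin r × Fin m := fun v => (c v, col (c v) ⟨v, rfl⟩)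
  have hF : ∀ u v, G.Adj u v → F u ≠ F v := by
    intro u v huv hE
    have h1 : c u = c v := congrArg Prod.fst hE
    have h2 : col (c u) ⟨u, rfl⟩ = col (c v) ⟨v, rfl⟩ := congrArg Prod.snd hE
    have h3 : ∀ i (hu : c u = i) (hv : c v = i), col i ⟨u, hu⟩ ≠ col i ⟨v, hv⟩ := by
      intro i hu hv
      exact (col i).valid huv
    have h4 : ∀ i (hu : c u = i), col (c u) ⟨u, rfl⟩ = col i ⟨u, hu⟩ := by
      rintro i rfl
      rfl
    exact h3 (c v) h1 rfl ((h4 (c v) h1).symm.trans h2)
  have hcol : G.Coloring (Fin r × Fin m) := SimpleGraph.Coloring.mk F (fun {u v} huv => hF u v huv)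
  have := hcol.colorable
  rwa [Fintype.card_prod, Fintype.card_fin, Fintype.card_fin] at this

/-- `final` for graphs with a vertex partition into `r` parts of treewidth at most `w`. -/
theorem final_parts {V : Type} [Fintype V] (G : SimpleGraph V) (r w p k : ℕ) (hr : 1 ≤ r)
    (c : V → Fin r) (ι : Fin r → Type) [∀ i, Fintype (ι i)] (T : ∀ i, SimpleGraph (ι i))
    (hT : ∀ i, (T i).IsTree) (B : ∀ i, ι i → Finset {v // c v = i})
    (hw : ∀ i t, (B i t).card ≤ w + 1) (hcov : ∀ i v, ∃ t, v ∈ B i t)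
    (hedge : ∀ i, ∀ u v : {v // c v = i}, G.Adj u v → ∃ t, u ∈ B i t ∧ v ∈ B i t)
    (hconn : ∀ i v, ((T i).induce {t | v ∈ B i t}).Preconnected)
    (hk : G.chromaticNumber = (k : ℕ∞))
    (h : r * (2 ^ 43 * (p + Nat.log 2 (w + 1) + 1)) ≤ k) : Scheme G p := by
  by_contra hS
  set M := 2 ^ 43 * (p + Nat.log 2 (w + 1) + 1) with hM
  have hM1 : 1 ≤ M := by
    rw [hM]
    have : 1 ≤ 2 ^ 43 * (p + Nat.log 2 (w + 1) + 1) := by omega
    exact this
  have key : ∀ i, (G.comap (fun v : {v // c v = i} => (v : V))).Colorable (M - 1) := by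
    intro i
    obtain ⟨k', hk'⟩ : ∃ k' : ℕ,
        (G.comap (fun v : {v // c v = i} => (v : V))).chromaticNumber = (k' : ℕ∞) := by
      have hne : (G.comap (fun v : {v // c v = i} => (v : V))).chromaticNumber ≠ ⊤ :=
        SimpleGraph.chromaticNumber_ne_top_iff_exists.2 ⟨_, SimpleGraph.colorable_of_fintype _⟩
      exact ⟨_, (ENat.natCast_toNat hne).symm⟩
    by_contra hcol
    have hle : M ≤ k' := by
      by_contra hlt
      apply hcol
      have h1 : (G.comap (fun v : {v // c v = i} => (v : V))).Colorable k' :=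
        SimpleGraph.chromaticNumber_le_iff_colorable.1 hk'.le
      exact h1.mono (by omega)
    apply hS
    apply Scheme.of_comap (fun v : {v // c v = i} => (v : V)) Subtype.val_injective
    exact final _ (T i) (hT i) (B i) w p k' (hw i) (hcov i) (hedge i) (hconn i) hk' hle
  have h1 := (colorable_of_parts G c key).chromaticNumber_le
  rw [hk] at h1
  have h2 : k ≤ r * (M - 1) := by exact_mod_cast h1
  have h3 : r * (M - 1) < r * M := Nat.mul_lt_mul_of_pos_left (by omega) (by omega)
  omega

end Pool.MP_a862e4_co.TW
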