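import Pool.Agent.W_a862e4_tw.Gate
import Pool.Agent.W_a862e4_tw.Nbh
import Pool.Agent.W_a862e4_tw.Cnt

/-!
One step of the sequence of layers.
-/

set_option autoImplicit false
set_option linter.unusedSectionVars false

namespace Pool.MP_a862e4_co.TW

open Pool.MP_4929df_co.H91 Pool.MP_a862e4_co.H18
open scoped Classical

variable {V : Type*} [Fintype V]

/-- `FF G p (UU M) ∩ Z` has at most `4 k²` elements: `count` with `Q = NZ H Z` (a vertex of `Z` has its neighbours in `UU M` in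
`NZ H Z`, as `G ≤ H` and `Z` is disjoint from `UU M`), `card_NZ`. -/
theorem card_FF {G H : SimpleGraph V} {o : V → ℕ} {k p : ℕ} (hGH : G ≤ H) (hE : Elim H o k)
    (h : ¬ Scheme G p) {M : Finset V} (hM : Clo H o M) {Z : Set V}
    (hZ : Comp H ((UU H o M : Finset V) : Set V)ᶜ Z) :
    (prt (FF G p (UU H o M)) Z).card ≤ 4 * k ^ 2 := by
  have hd : Disjoint (NZ H Z) (prt (FF G p (UU H o M)) Z) := by
    rw [Finset.disjoint_left]
    intro x hx hx'
    exact (mem_NZ.1 hx).1 (mem_prt.1 hx').2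
  have hF : ∀ v ∈ prt (FF G p (UU H o M)) Z, p ≤ (nb G (NZ H Z) v).card := by
    intro v hv
    obtain ⟨hv1, hvZ⟩ := mem_prt.1 hv
    refine (mem_FF.1 hv1).2.trans (Finset.card_le_card ?_)
    intro w hw
    obtain ⟨hw1, hw2⟩ := mem_nbf.1 hw
    refine mem_nbf.2 ⟨mem_NZ.2 ⟨fun hwZ => ?_, v, hvZ, hGH hw2⟩, hw2⟩
    exact hZ.1 hwZ (Finset.mem_coe.2 hw1)
  have h1 := count h hd hF
  have h2 := card_NZ hE hM hZ
  calc (prt (FF G p (UU H o M)) Z).card ≤ (NZ H Z).card ^ 2 := h1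
    _ ≤ (2 * k) ^ 2 := Nat.pow_le_pow_left h2 2
    _ = 4 * k ^ 2 := by ring

/-- One step.  Let `r : Finset V` have at most one element, `M' = lcl (M ∪ FF G p (UU M) ∪ r)`.  Then `UU M'` has at most
`32 (k + 1) ^ 5` elements in `Z`.
PROOF.  `A = M ∪ FF ∪ r`: `prt A Z` has at most `0 + 4 k² + 1` elements (`M ⊆ UU M` is disjoint from `Z`), `NZ Z` at most `2 k`, so
`prt M' Z` at most `(4 k² + 1 + 2 k)² ≤ 16 (k + 1) ^ 4` (`card_lcl_prt`).  `x ∈ UU M' ∩ Z`: `x` is in the bag of some `t ∈ M'`; `t = x` or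
`H.Adj t x`, so `t ∈ Z` or `t ∈ NZ Z`.  Hence `prt (UU M') Z` is contained in the union of the bags of `prt M' Z ∪ NZ Z`, each of at most
`k + 1` elements: at most `(16 (k + 1) ^ 4 + 2 k) (k + 1)`. -/
theorem card_step {G H : SimpleGraph V} {o : V → ℕ} {k p : ℕ} (hGH : G ≤ H) (hE : Elim H o k)
    (h : ¬ Scheme G p) {M r : Finset V} (hM : Clo H o M) (hr : r.card ≤ 1) {Z : Set V}
    (hZ : Comp H ((UU H o M : Finset V) : Set V)ᶜ Z) :
    (prt (UU H o (lcl H o ((M ∪ FF G p (UU H o M)) ∪ r))) Z).card ≤ 32 * (k + 1) ^ 5 := by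
  have hFF := card_FF hGH hE h hM hZ
  have hNZ := card_NZ hE hM hZ
  have hA : (prt ((M ∪ FF G p (UU H o M)) ∪ r) Z).card ≤ 4 * k ^ 2 + 1 := by
    have hsub : prt ((M ∪ FF G p (UU H o M)) ∪ r) Z ⊆ prt (FF G p (UU H o M)) Z ∪ r := by
      intro x hx
      obtain ⟨hx1, hxZ⟩ := mem_prt.1 hx
      rcases Finset.mem_union.1 hx1 with hx2 | hx2
      · rcases Finset.mem_union.1 hx2 with hx3 | hx3
        · exact absurd (Finset.mem_coe.2 (subset_UU H o M hx3)) (hZ.1 hxZ)
        · exact Finset.mem_union_left _ (mem_prt.2 ⟨hx3, hxZ⟩)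
      · exact Finset.mem_union_right _ hx2
    exact (Finset.card_le_card hsub).trans ((Finset.card_union_le _ _).trans (by omega))
  have hL : (prt (lcl H o ((M ∪ FF G p (UU H o M)) ∪ r)) Z).card ≤ 16 * (k + 1) ^ 4 := by
    refine (card_lcl_prt hE.inj _ Z).trans ?_
    calc ((prt ((M ∪ FF G p (UU H o M)) ∪ r) Z).card + (NZ H Z).card) ^ 2
        ≤ (4 * (k + 1) ^ 2) ^ 2 := by
          refine Nat.pow_le_pow_left ?_ 2
          have : 4 * (k + 1) ^ 2 = 4 * k ^ 2 + 8 * k + 4 := by ring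
          omega
      _ = 16 * (k + 1) ^ 4 := by ring
  have hsub : prt (UU H o (lcl H o ((M ∪ FF G p (UU H o M)) ∪ r))) Z ⊆
      (prt (lcl H o ((M ∪ FF G p (UU H o M)) ∪ r)) Z ∪ NZ H Z).biUnion (bag H o) := by
    intro x hx
    obtain ⟨hx1, hxZ⟩ := mem_prt.1 hx
    obtain ⟨t, ht, htx⟩ := mem_UU.1 hx1
    refine Finset.mem_biUnion.2 ⟨t, ?_, ?_⟩
    · by_cases htZ : t ∈ Z
      · exact Finset.mem_union_left _ (mem_prt.2 ⟨ht, htZ⟩)
      · refine Finset.mem_union_right _ (mem_NZ.2 ⟨htZ, x, hxZ, ?_⟩)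
        rcases htx with rfl | htx
        · exact absurd hxZ htZ
        · exact htx.1.symm
    · unfold bag
      rcases htx with rfl | htx
      · exact Finset.mem_insert_self _ _
      · exact Finset.mem_insert_of_mem (mem_bk.2 htx)
  have hbag : ∀ t ∈ prt (lcl H o ((M ∪ FF G p (UU H o M)) ∪ r)) Z ∪ NZ H Z,
      (bag H o t).card ≤ k + 1 := fun t _ =>
    (Finset.card_insert_le _ _).trans (Nat.succ_le_succ (hE.card t))
  calc (prt (UU H o (lcl H o ((M ∪ FF G p (UU H o M)) ∪ r))) Z).card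
      ≤ ((prt (lcl H o ((M ∪ FF G p (UU H o M)) ∪ r)) Z ∪ NZ H Z).biUnion (bag H o)).card :=
        Finset.card_le_card hsub
    _ ≤ (prt (lcl H o ((M ∪ FF G p (UU H o M)) ∪ r)) Z ∪ NZ H Z).card * (k + 1) :=
        Finset.card_biUnion_le_card_mul _ _ _ hbag
    _ ≤ (32 * (k + 1) ^ 4) * (k + 1) := by
        refine Nat.mul_le_mul_right _ ((Finset.card_union_le _ _).trans ?_)
        have h3 : 2 * k ≤ 16 * (k + 1) ^ 4 := by
          have h4 : k + 1 ≤ (k + 1) ^ 4 := Nat.le_self_pow (by norm_num) _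
          omega
        omega
    _ = 32 * (k + 1) ^ 5 := by ring

private noncomputable def Seq_r (H : SimpleGraph V) (o : V → ℕ) (M : Finset V) : Finset V :=
  if h : ∃ x, x ∉ UU H o M then {h.choose} else ∅

private theorem Seq_r_card (H : SimpleGraph V) (o : V → ℕ) (M : Finset V) :
    (Seq_r H o M).card ≤ 1 := by
  unfold Seq_r
  split_ifs with h
  · simp
  · simp

private theorem Seq_r_spec {H : SimpleGraph V} {o : V → ℕ} {M : Finset V}
    (h : ∃ x, x ∉ UU H o M) : ∃ x, x ∉ UU H o M ∧ x ∈ Seq_r H o M := by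
  refine ⟨h.choose, h.choose_spec, ?_⟩
  unfold Seq_r
  rw [dif_pos h]
  exact Finset.mem_singleton_self _

private noncomputable def Seq_M (G H : SimpleGraph V) (o : V → ℕ) (p : ℕ) : ℕ → Finset V
  | 0 => ∅
  | j + 1 => lcl H o ((Seq_M G H o p j ∪ FF G p (UU H o (Seq_M G H o p j))) ∪
      Seq_r H o (Seq_M G H o p j))

private theorem Seq_clo (G H : SimpleGraph V) (o : V → ℕ) (p : ℕ) :
    ∀ j, Clo H o (Seq_M G H o p j)
  | 0 => clo_empty H o
  | _ + 1 => clo_lcl _

private theorem Seq_UU_mono {H : SimpleGraph V} {o : V → ℕ} {M M' : Finset V} (h : M ⊆ M') :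
    UU H o M ⊆ UU H o M' := Finset.biUnion_subset_biUnion_of_subset_left _ h

private theorem Seq_sub (G H : SimpleGraph V) (o : V → ℕ) (p j : ℕ) :
    (Seq_M G H o p j ∪ FF G p (UU H o (Seq_M G H o p j))) ∪ Seq_r H o (Seq_M G H o p j) ⊆
      Seq_M G H o p (j + 1) := subset_lcl H o _

private theorem Seq_mono (G H : SimpleGraph V) (o : V → ℕ) (p j : ℕ) :
    UU H o (Seq_M G H o p j) ⊆ UU H o (Seq_M G H o p (j + 1)) :=
  Seq_UU_mono ((Finset.subset_union_left.trans Finset.subset_union_left).trans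
    (Seq_sub G H o p j))

private theorem Seq_grow (G H : SimpleGraph V) (o : V → ℕ) (p : ℕ) :
    ∀ j, j ≤ (UU H o (Seq_M G H o p j)).card ∨ UU H o (Seq_M G H o p j) = Finset.univ
  | 0 => Or.inl (Nat.zero_le _)
  | j + 1 => by
    have hm := Seq_mono G H o p j
    by_cases hu : UU H o (Seq_M G H o p j) = Finset.univ
    · right
      rw [hu] at hm
      exact Finset.univ_subset_iff.1 hm
    · have hj : j ≤ (UU H o (Seq_M G H o p j)).card :=
        (Seq_grow G H o p j).resolve_right hu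
      left
      have hex : ∃ x, x ∉ UU H o (Seq_M G H o p j) := by
        by_contra hc
        push Not at hc
        exact hu (Finset.eq_univ_iff_forall.2 hc)
      obtain ⟨x, hx1, hx2⟩ := Seq_r_spec hex
      have hx3 : x ∈ UU H o (Seq_M G H o p (j + 1)) :=
        subset_UU H o _ (Seq_sub G H o p j (Finset.mem_union_right _ hx2))
      have : (UU H o (Seq_M G H o p j)).card < (UU H o (Seq_M G H o p (j + 1))).card :=
        Finset.card_lt_card (Finset.ssubset_iff_of_subset hm |>.2 ⟨x, hx3, hx1⟩)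
      omega

/-- The sequence `X j = UU (M j)`, `M 0 = ∅`, `M (j + 1) = lcl (M j ∪ FF G p (X j) ∪ r j)`, `r j` = a singleton outside of `X j` if there
is one (`∅` otherwise).  `M j` is closed (`clo_lcl`, `clo_empty`), `M j ⊆ M (j + 1)` (`subset_lcl`), so `X` is increasing, and
`j ≤ |X j|` or `X j = univ`.  A vertex `v ∉ X (j + 1)` is not in `FF G p (X j)` and not in `X j`, so it has less than `p` neighbours
in `X j`. -/
theorem exists_seq {G H : SimpleGraph V} {o : V → ℕ} {k p : ℕ} (hGH : G ≤ H) (hE : Elim H o k)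
    (h : ¬ Scheme G p) :
    ∃ X : ℕ → Finset V, X 0 = ∅ ∧ (∀ j, X j ⊆ X (j + 1)) ∧ X (Fintype.card V) = Finset.univ ∧
      (∀ j, ∀ v, v ∉ X (j + 1) → (nb G (X j) v).card < p) ∧
      ∀ j Z, Comp H ((X j : Finset V) : Set V)ᶜ Z → (prt (X (j + 1)) Z).card ≤ 32 * (k + 1) ^ 5 := by
  refine ⟨fun j => UU H o (Seq_M G H o p j), ?_, fun j => Seq_mono G H o p j, ?_, ?_, ?_⟩
  · exact Finset.biUnion_empty
  · rcases Seq_grow G H o p (Fintype.card V) with h1 | h1
    · exact Finset.eq_univ_of_card _ (le_antisymm (Finset.card_le_univ _) h1)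
    · exact h1
  · intro j v hv
    by_contra hc
    push Not at hc
    refine hv (subset_UU H o _ (Seq_sub G H o p j (Finset.mem_union_left _
      (Finset.mem_union_right _ (mem_FF.2 ⟨fun h1 => hv (Seq_mono G H o p j h1), hc⟩)))))
  · intro j Z hZ
    exact card_step hGH hE h (Seq_clo G H o p j) (Seq_r_card H o _) hZ

end Pool.MP_a862e4_co.TW
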